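import Pool.Agent.W623.SecC.Defs

/-!
# Statements for the version with two valuation rings

(helper623)  `V'` is a valuation ring of the algebraic closure with finite residue field below which a
Frobenius element acts, `V` a coarser one above a discrete valuation ring.
-/

open Polynomial

namespace Pool.Agent.W623.SecD

open Pool.Agent.W623.SecC

universe u v w

/-- **Part A8b**: `PartA8` with a finer valuation ring `V'` for the Frobenius element. -/
def PartA8b : Prop :=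
  ∀ (K₀ K : Type u) (R : Type v) [Field K₀] [Field K] [CharZero K] [Field R] [Algebra K₀ K]
    (V V' : ValuationSubring K), V' ≤ V → (2 : K)⁻¹ ∈ V' → (∀ η, IsU V η → ∃ ρ, ρ ^ 2 = η) →
    ∀ ϖ : K₀, ϖ ≠ 0 → algebraMap K₀ K ϖ ∈ V.nonunits →
    (∀ c : K, c ≠ 0 → ∃ j : ℤ, IsU V (c / algebraMap K₀ K ϖ ^ j)) →
    ∀ (φ : K ≃ₐ[K₀] K) (Q : ℕ), 2 ≤ Q → (∀ x, φ x ∈ V ↔ x ∈ V) →
    (∀ x ∈ V', φ x - x ^ Q ∈ V'.nonunits) →
    ∀ e : Fin 3 → K₀, Good V' (fun i => algebraMap K₀ K (e i)) →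
    ∀ (ι : K →+* R) (Φ : R ≃+* R), (∀ c, Φ (ι c) = ι (φ c)) → ∀ z w : R, Φ z = z → Φ w = w →
    w ^ 2 = ∏ i, (z - ι (algebraMap K₀ K (e i))) →
    (∀ P : K[X], P ≠ 0 → P.eval₂ ι z ≠ 0) →
    -- Kummer theory
    (∀ (n : ℕ) (W : WeierstrassCurve.Affine K), W = crv (fun i => algebraMap K₀ K (e i)) →
      ∀ (hzw : W.polynomial.eval₂ (eval₂RingHom ι z) w = 0) (x y : K), W.Nonsingular x y →
        ∀ f : W.CoordinateRing,
          WeierstrassCurve.Affine.CoordinateRing.XYIdeal W x (C y) ^ (2 ^ n) = Ideal.span {f} →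
            ∃ (j : ℤ) (β : R), ev W ι z w hzw f = ι (algebraMap K₀ K ϖ) ^ j * β ^ (2 ^ n)) →
    (∀ (n : ℕ) (j : ℤ) (β : R), ι (algebraMap K₀ K ϖ) ^ j = β ^ (2 ^ n) → (2 ^ n : ℤ) ∣ j) →
    ∀ (i : Fin 3) (j : ℤ) (β : R),
      z - ι (algebraMap K₀ K (e i)) = ι (algebraMap K₀ K ϖ) ^ j * β ^ 2 → Even j

/-- **Part B1b**: `PartB1` for a valuation ring of any rank. -/
def PartB1b : Prop :=
  ∀ (A k : Type u) (kb : Type w) [CommRing A] [IsDomain A] [ValuationRing A] [Field k]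
    [Field kb] [Algebra A k] [Algebra k kb] [Algebra A kb] [IsScalarTower A k kb]
    [IsFractionRing A k] [CharZero k] [IsAlgClosure k kb] [Finite (IsLocalRing.ResidueField A)],
    ∃ (V : ValuationSubring kb) (φ : kb ≃ₐ[k] kb),
      (∀ a : A, algebraMap A kb a ∈ V) ∧
      (∀ a ∈ IsLocalRing.maximalIdeal A, algebraMap A kb a ∈ V.nonunits) ∧
      (∀ x, φ x ∈ V ↔ x ∈ V) ∧
      (∀ x ∈ V, φ x - x ^ Nat.card (IsLocalRing.ResidueField A) ∈ V.nonunits)

/-- **Part B2b**: `PartB2` without the finiteness of the residue field. -/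
def PartB2b : Prop :=
  ∀ (A k : Type u) (kb : Type w) [CommRing A] [IsDomain A] [IsDiscreteValuationRing A] [Field k]
    [Field kb] [Algebra A k] [Algebra k kb] [Algebra A kb] [IsScalarTower A k kb]
    [IsFractionRing A k] [CharZero k] [IsAlgClosure k kb]
    (V : ValuationSubring kb), (∀ a : A, algebraMap A kb a ∈ V) →
    (∀ a ∈ IsLocalRing.maximalIdeal A, algebraMap A kb a ∈ V.nonunits) →
    ∀ ϖ : A, Irreducible ϖ → ∀ f : A[X], IsUnit f.leadingCoeff →
      (f.map (IsLocalRing.residue A)).Separable →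
      ∀ c ∈ IntermediateField.adjoin k {θ : kb | aeval θ f = 0}, c ≠ 0 →
        ∃ j : ℤ, IsU V (c / algebraMap A kb ϖ ^ j)

end Pool.Agent.W623.SecD
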