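import Pool.Agent.W349.SecC.PartA8
import Pool.Agent.W623.SecD.DefsB

/-!
# Part A8b: the abstract theorem on elliptic curves with two valuation rings
(adapted from Part A8 of helper349)
-/

open Polynomial Pool.Agent.W623.SecC

namespace Pool.Agent.W623.SecD

open W349.SecC

universe u v

open WeierstrassCurve.Affine (CoordinateRing)
open WeierstrassCurve.Affine.CoordinateRing

open Classical in
theorem partA8b (h2 : PartA2.{u}) (h3 : PartA3.{u}) (h4 : PartA4.{u}) (h5 : PartA5.{u})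
    (h6 : PartA6.{u}) : PartA8b.{u, v} := by
  intro K₀ K R _ _ _ _ _ V V' hVV h2V' hsq ϖ hϖ0 hϖn hord φ Q hQ hφV hφQ e hGood' ι Φ hΦ z w hz hw
    hwz ht hK hU i₀ j₀ β₀ hβ₀
  have h2V : (2 : K)⁻¹ ∈ V := hVV h2V'
  have hGood : Good V (fun i => algebraMap K₀ K (e i)) :=
    ⟨fun i => hVV (hGood'.1 i), fun i j hij => ⟨(hGood'.2 i j hij).1, hVV (hGood'.2 i j hij).2.1,
      hVV (hGood'.2 i j hij).2.2⟩⟩
  by_contra hj
  rw [Int.not_even_iff_odd] at hj
  have hW := hWW (K := K) e
  set W : WeierstrassCurve.Affine K := WW K e with hWdef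
  have ha1 : W.a₁ = 0 := by rw [hW]; rfl
  have ha3 : W.a₃ = 0 := by rw [hW]; rfl
  have hφe : ∀ c : K₀, φ (algebraMap K₀ K c) = algebraMap K₀ K c := fun c => φ.commutes c
  let φ' : K →+* K := (φ : K →+* K)
  have hφe' : ∀ c : K₀, φ' (algebraMap K₀ K c) = algebraMap K₀ K c := hφe
  have hf2 : φ' W.a₂ = W.a₂ := by
    rw [hW]; simp only [crv, map_neg, map_add, hφe']
  have hf4 : φ' W.a₄ = W.a₄ := by
    rw [hW]; simp only [crv, map_mul, map_add, hφe']
  have hf6 : φ' W.a₆ = W.a₆ := by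
    rw [hW]; simp only [crv, map_neg, map_mul, hφe']
  have hφ := poly_map φ' ha1 ha3 hf2 hf4 hf6
  have hzw : W.polynomial.eval₂ (eval₂RingHom ι z) w = 0 := by
    rw [WeierstrassCurve.Affine.polynomial, ha1, ha3]
    rw [hW]
    simp only [crv]
    rw [Fin.prod_univ_three] at hwz
    simp [eval₂_pow]
    linear_combination hwz
  set E := ev W ι z w hzw with hE
  have hEc : ∀ c, E (algebraMap K W.CoordinateRing c) = ι c := ev_const ι z w hzw
  have hE0 : ∀ f, Lc f ≠ 0 → E f ≠ 0 := ev_ne_zero ι z w hzw ht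
  set p := algebraMap K₀ K ϖ with hp
  set q := ι p with hqdef
  have hq : q ≠ 0 := by
    rw [hqdef, _root_.map_ne_zero, hp, _root_.map_ne_zero]
    exact hϖ0
  have hEF : ∀ f, E (Fr φ' hφ f) = Φ (E f) := ev_Fr hφ ι z w hzw Φ (fun c => hΦ c) hz hw
  have hΦq : Φ q = q := by rw [hqdef, hΦ, hp, hφe]
  have hEX : ∀ x, E (XClass W x) ≠ 0 := fun x => hE0 _ (by rw [Lc_XClass]; exact one_ne_zero)
  -- the level
  set n := Q ^ 2 + 1 with hn
  have hN : Q ^ 2 + 1 < 2 ^ n := Nat.lt_two_pow_self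
  have hrel := rel_exists (E := E) (q := q) h5 h6 _ hW n (fun x y hxy f hf =>
    hK n W hW hzw x y hxy f hf)
  have huniq : ∀ {P : W.Point} {j j' : ℤ}, Rel E q n P j → Rel E q n P j' → (2 ^ n : ℤ) ∣ j - j' :=
    fun h h' => rel_unique h5 hEc hE0 hq V hsq hU h h'
  -- the automorphism
  set g : W.Point →+ W.Point :=
    WeierstrassCurve.Affine.Point.map (W' := crv e) (φ : K →ₐ[K₀] K) with hg
  have hgi : ∀ P : W.Point, idl (g P) = (idl P).map (Fr φ' hφ) := by
    intro P
    cases P with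
    | zero =>
      have : g (WeierstrassCurve.Affine.Point.zero : W.Point) = WeierstrassCurve.Affine.Point.zero :=
        map_zero g
      rw [this]
      change (⊤ : Ideal W.CoordinateRing) = (⊤ : Ideal W.CoordinateRing).map _
      rw [Ideal.map_top]
    | some x y hxy =>
      rw [hg, WeierstrassCurve.Affine.Point.map_some]
      change XYIdeal W _ _ = (XYIdeal W x (C y)).map _
      rw [Fr_XYIdeal]
      rfl
  -- the group
  let A : AddSubgroup W.Point := (nsmulAddMonoidHom (2 ^ n) : W.Point →+ W.Point).ker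
  have hA : ∀ P : W.Point, P ∈ A ↔ 2 ^ n • P = 0 := fun P => by
    simp only [A, AddMonoidHom.mem_ker, nsmulAddMonoidHom_apply]
  have hfin : (A : Set W.Point).Finite := by
    have := h3 K _ W hW n
    refine this.subset fun P hP => ?_
    exact (hA P).1 hP
  haveI : Finite A := hfin
  choose! J hJ using fun (P : A) => hrel P ((hA P).1 P.2)
  haveI : NeZero (2 ^ n) := ⟨by positivity⟩
  let v : A →+ ZMod (2 ^ n) := AddMonoidHom.mk' (fun P => ((J P : ℤ) : ZMod (2 ^ n))) (by
    intro P P'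
    have h := rel_add h5 hEc hE0 hq ha1 ha3 (n := n) (P := P) (P' := P')
      ((hA _).1 (P + P').2) (hJ P) (hJ P')
    have h' := huniq (hJ (P + P')) h
    rw [← Int.cast_add, ZMod.intCast_eq_intCast_iff_dvd_sub]
    rw [← dvd_neg, neg_sub]
    push_cast
    exact h')
  have hv : ∀ P, v P = ((J P : ℤ) : ZMod (2 ^ n)) := fun _ => rfl
  have hgA : ∀ P : A, g P ∈ A := by
    intro P
    rw [hA, ← map_nsmul, (hA _).1 P.2, map_zero]
  let gA : A →+ A := (g.comp A.subtype).codRestrict A hgA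
  have hgAv : ∀ P, v (gA P) = v P := by
    intro P
    have h := rel_map hφ ha1 ha3 hf2 hf4 hf6 Φ hEF hΦq (P := (P : W.Point)) (P' := g P) (hgi P)
      (hJ P)
    have h' := huniq (hJ (gA P)) h
    rw [hv, hv, ZMod.intCast_eq_intCast_iff_dvd_sub]
    rw [← dvd_neg, neg_sub]
    push_cast
    exact h'
  -- a point with odd value
  have hne : ∀ i j : Fin 3, i ≠ j → algebraMap K₀ K (e i) - algebraMap K₀ K (e j) ≠ 0 :=
    fun i j hij => (hGood.2 i j hij).1
  have hns := nonsing (fun i => algebraMap K₀ K (e i)) hne hW i₀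
  have hT2 : 2 • (WeierstrassCurve.Affine.Point.some _ 0 hns : W.Point) = 0 := by
    rw [two_nsmul]
    apply WeierstrassCurve.Affine.Point.add_self_of_Y_eq
    rw [WeierstrassCurve.Affine.negY, ha1, ha3]
    ring
  have hdiv : ∀ m : ℕ, ∃ T : W.Point,
      2 ^ m • T = (WeierstrassCurve.Affine.Point.some _ 0 hns : W.Point) := by
    intro m
    induction m with
    | zero => exact ⟨_, by rw [pow_zero, one_nsmul]⟩
    | succ m ih =>
      obtain ⟨T, hT⟩ := ih
      obtain ⟨T', hT'⟩ := h2 K V h2V hsq _ hGood W hW (m + 1) T (by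
        rw [pow_succ, mul_nsmul, hT, hT2])
      exact ⟨T', by rw [pow_succ', mul_nsmul, hT', hT]⟩
  obtain ⟨T, hT⟩ := hdiv (Q ^ 2)
  have hTA : T ∈ A := by
    rw [hA, hn, pow_succ, mul_nsmul, hT, hT2]
  have hodd : (2 : ℤ) ∣ J ⟨T, hTA⟩ - j₀ := by
    refine rel_odd h5 hEc hE0 hq ha1 ha3 V hsq hU hEX hns hT (β := β₀) ?_ (hJ ⟨T, hTA⟩)
    rw [hE, ev_XClass, hβ₀]
  have hJodd : Odd (J ⟨T, hTA⟩) := by
    obtain ⟨k, hk⟩ := hodd
    obtain ⟨l, hl⟩ := hj
    exact ⟨k + l, by omega⟩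
  have hunit : IsUnit (v ⟨T, hTA⟩) := by
    rw [hv, ZMod.coe_int_isUnit_iff_isCoprime]
    push_cast
    apply IsCoprime.pow_left
    rw [Int.isCoprime_iff_gcd_eq_one]
    obtain ⟨k, hk⟩ := hJodd
    rw [hk]
    have : IsCoprime (2 : ℤ) (2 * k + 1) := ⟨-k, 1, by ring⟩
    exact Int.isCoprime_iff_gcd_eq_one.1 this
  have hsurj : Function.Surjective v := by
    intro x
    obtain ⟨y, hy⟩ := hunit.exists_right_inv
    refine ⟨(y * x).val • ⟨T, hTA⟩, ?_⟩
    rw [map_nsmul, nsmul_eq_mul, ZMod.natCast_val, ZMod.cast_id, mul_comm y x, mul_assoc,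
      mul_comm y, hy, mul_one]
  have hcount := count (2 ^ n) v hsurj gA hgAv
  have hle := h4 K V' h2V' _ hGood' W hW φ Q hQ hφQ n
  set S : Set W.Point := {P : W.Point | 2 ^ n • P = 0 ∧ ∀ (x y : K) (h : W.Nonsingular x y),
          P = WeierstrassCurve.Affine.Point.some x y h → φ x = x ∧ φ y = y} with hS
  have hSf : S.Finite := (h3 K _ W hW n).subset fun P hP => hP.1
  haveI : Finite S := hSf
  have hle2 : Nat.card {a : A // gA a = a} ≤ Nat.card S := by
    refine Nat.card_le_card_of_injective (fun a => ⟨(a.1 : W.Point), (hA _).1 a.1.2, ?_⟩) ?_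
    · intro x y hxy hP
      have h1 : g (a.1 : W.Point) = a.1 := congrArg Subtype.val a.2
      rw [hP, hg, WeierstrassCurve.Affine.Point.map_some] at h1
      rw [WeierstrassCurve.Affine.Point.some.injEq] at h1
      exact h1
    · intro a b hab
      apply Subtype.ext
      apply Subtype.ext
      have h1 := congrArg (fun P : S => (P : W.Point)) hab
      exact h1
  have : Nat.card S = S.ncard := rfl
  omega

end Pool.Agent.W623.SecD
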