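import Pool.Agent.W308.SecC.B2
import Pool.Agent.W623.SecD.DefsB

set_option autoImplicit false
set_option linter.all false

/-!
The splitting field of a polynomial with separable reduction is unramified: discrete valuation rings
with arbitrary residue field (adapted from Part B2 of helper308).
-/

open Polynomial

namespace Pool.Agent.W623.SecD

open Pool.Agent.W623.SecC Pool.Agent.W308.SecC

universe u v w

/-- an algebra over a field generated by roots of separable polynomials is reduced -/
theorem reduced_of_sep {κ R : Type*} [Field κ] [CommRing R] [Algebra κ R]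
    [Algebra.FiniteType κ R] (S : Set R) (hS : Algebra.adjoin κ S = ⊤)
    (h : ∀ s ∈ S, ∃ g : κ[X], g.Separable ∧ aeval s g = 0) : IsReduced R := by
  have hD : ∀ x : R, KaehlerDifferential.D κ R x = 0 := by
    intro x
    have hx : x ∈ Algebra.adjoin κ S := by rw [hS]; trivial
    induction hx using Algebra.adjoin_induction with
    | mem t ht =>
      obtain ⟨g, ⟨u, v, huv⟩, hgt⟩ := h t ht
      have h1 := congrArg (aeval t) huv
      rw [map_add, map_mul, map_mul, hgt, mul_zero, zero_add, map_one] at h1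
      have h2 := (KaehlerDifferential.D κ R).map_aeval g t
      rw [hgt, map_zero] at h2
      have h3 : KaehlerDifferential.D κ R t =
          (aeval t v * aeval t (derivative g)) • KaehlerDifferential.D κ R t := by
        rw [h1, one_smul]
      rw [h3, mul_smul, ← h2, smul_zero]
    | algebraMap a => exact (KaehlerDifferential.D κ R).map_algebraMap a
    | add x y hx hy h1 h2 => rw [map_add, h1, h2, add_zero]
    | mul x y hx hy h1 h2 => rw [Derivation.leibniz, h1, h2, smul_zero, smul_zero, add_zero]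
  have hunr : Algebra.FormallyUnramified κ R := by
    rw [Algebra.formallyUnramified_iff]
    have h1 := KaehlerDifferential.span_range_derivation κ R
    have h2 : Set.range (KaehlerDifferential.D κ R) ⊆ {0} := by
      rintro _ ⟨z, rfl⟩
      exact hD z
    rw [Submodule.span_eq_bot.2 (fun z hz => h2 hz)] at h1
    exact (Submodule.subsingleton_iff R).1 ((subsingleton_iff_bot_eq_top).1 h1)
  exact Algebra.FormallyUnramified.isReduced_of_field κ R

theorem kill {κ R : Type*} [Field κ] [CommRing R] [Algebra κ R] [IsReduced R] (t : R)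
    (ht : IsIntegral κ t) : ∃ h : κ[X], h.coeff 0 ≠ 0 ∧ t * aeval t h = 0 := by
  obtain ⟨g, hg, hgt⟩ := ht
  obtain ⟨h, hgh, hndvd⟩ := exists_eq_pow_rootMultiplicity_mul_and_not_dvd g hg.ne_zero 0
  rw [C_0, sub_zero, X_dvd_iff] at hndvd
  rw [C_0, sub_zero] at hgh
  set e := rootMultiplicity 0 g with he
  refine ⟨h, hndvd, ?_⟩
  have h1 : (t * aeval t h) ^ (e + 1) = 0 := by
    have h2 : aeval t g = 0 := hgt
    rw [hgh, map_mul, map_pow, aeval_X] at h2
    have h3 : (t * aeval t h) ^ (e + 1) = (t ^ e * aeval t h) * (t * (aeval t h) ^ e) := by ring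
    rw [h3, h2, zero_mul]
  exact eq_zero_of_pow_eq_zero h1

section main

variable {A k : Type u} {kb : Type w} [CommRing A] [IsDomain A] [IsDiscreteValuationRing A]
    [Field k] [Field kb] [Algebra A k] [Algebra k kb] [Algebra A kb] [IsScalarTower A k kb]
    [IsFractionRing A k]

/-- elements of a prime above the maximal ideal are killed modulo the uniformizer by an element
outside of it -/
lemma mid (ϖ : A) (hϖ : Irreducible ϖ) (f : A[X]) (hf : IsUnit f.leadingCoeff)
    (hs : (f.map (IsLocalRing.residue A)).Separable) (P : Ideal (B0 kb f)) [hPp : P.IsPrime]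
    (hIP' : algebraMap A (B0 kb f) ϖ ∈ P) (y : B0 kb f) (hy : y ∈ P) :
    ∃ h : B0 kb f, h ∈ P.primeCompl ∧ ∃ c : B0 kb f, y * h = algebraMap A (B0 kb f) ϖ * c := by
  classical
  set m := IsLocalRing.maximalIdeal A with hm
  set I : Ideal (B0 kb f) := m.map (algebraMap A (B0 kb f)) with hI
  have hIϖ : I = Ideal.span {algebraMap A (B0 kb f) ϖ} := by
    rw [hI, hm, hϖ.maximalIdeal_eq, Ideal.map_span, Set.image_singleton]
  let _ : Field (A ⧸ m) := Ideal.Quotient.field m
  -- integrality
  have hint : Algebra.IsIntegral A (B0 kb f) := by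
    obtain ⟨u, hu⟩ := hf
    have h1 : ∀ θ ∈ {θ : kb | aeval θ f = 0}, IsIntegral A θ := by
      intro θ hθ
      refine ⟨C ((u⁻¹ : Aˣ) : A) * f, ?_, ?_⟩
      · apply monic_C_mul_of_mul_leadingCoeff_eq_one
        rw [← hu, Units.inv_mul]
      · rw [eval₂_mul]
        have h3 : eval₂ (algebraMap A kb) θ f = 0 := hθ
        rw [h3, mul_zero]
    have h2 : B0 kb f ≤ integralClosure A kb := Algebra.adjoin_le h1
    refine ⟨fun x => ?_⟩
    have h3 : IsIntegral A (x : kb) := h2 x.2
    exact (isIntegral_algebraMap_iff (B := kb) (A := B0 kb f) Subtype.val_injective).1 h3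
  have hfin : {θ : kb | aeval θ f = 0}.Finite := by
    have hne : f.map (algebraMap A kb) ≠ 0 := by
      intro h0
      have h1 := congrArg (fun g => g.coeff f.natDegree) h0
      simp only [coeff_map, coeff_zero] at h1
      exact (hf.map (algebraMap A kb)).ne_zero h1
    refine (f.map (algebraMap A kb)).roots.toFinset.finite_toSet.subset ?_
    intro θ hθ
    simp only [Finset.mem_coe, Multiset.mem_toFinset]
    rw [mem_roots hne, IsRoot.def, eval_map]
    exact hθ
  have hft : Algebra.FiniteType A (B0 kb f) :=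
    (Subalgebra.fg_iff_finiteType _).1 (Subalgebra.fg_def.2 ⟨_, hfin, rfl⟩)
  have hftq : Algebra.FiniteType (A ⧸ m) (B0 kb f ⧸ I) := by
    have h1 : Algebra.FiniteType A (B0 kb f ⧸ I) := inferInstance
    exact Algebra.FiniteType.of_restrictScalars_finiteType A (A ⧸ m) (B0 kb f ⧸ I)
  -- the differentials vanish
  have hred : IsReduced (B0 kb f ⧸ I) := by
    refine reduced_of_sep (κ := A ⧸ m) (Ideal.Quotient.mk I '' {z | aeval (z : kb) f = 0}) ?_ ?_
    · rw [eq_top_iff]
      rintro z -
      obtain ⟨⟨x, hx⟩, rfl⟩ := Ideal.Quotient.mk_surjective z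
      induction hx using Algebra.adjoin_induction with
      | mem θ hθ => exact Algebra.subset_adjoin ⟨_, hθ, rfl⟩
      | algebraMap a => exact Subalgebra.algebraMap_mem _ (Ideal.Quotient.mk m a)
      | add x y hx hy h1 h2 => exact add_mem h1 h2
      | mul x y hx hy h1 h2 => exact mul_mem h1 h2
    · rintro _ ⟨⟨θ, hθB⟩, hθ, rfl⟩
      refine ⟨f.map (Ideal.Quotient.mk m), hs, ?_⟩
      rw [aeval_def, eval₂_map]
      have h2 : eval₂ (algebraMap A (B0 kb f)) (⟨θ, hθB⟩ : B0 kb f) f = 0 := by
        apply Subtype.ext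
        have h3 := hom_eval₂ f (algebraMap A (B0 kb f)) ((B0 kb f).val.toRingHom)
          (⟨θ, hθB⟩ : B0 kb f)
        have h4 : (B0 kb f).val.toRingHom.comp (algebraMap A (B0 kb f)) = algebraMap A kb := by
          ext a; rfl
        rw [h4] at h3
        exact h3.trans hθ
      have h3 := congrArg (Ideal.Quotient.mk I) h2
      rw [hom_eval₂, map_zero] at h3
      exact h3
  -- the polynomial of `y`
  set t : B0 kb f ⧸ I := Ideal.Quotient.mk I y with ht
  have hty : IsIntegral (A ⧸ m) t := by
    have h1 : IsIntegral A t := (hint.isIntegral y).map (Ideal.Quotient.mkₐ A I)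
    exact h1.tower_top
  obtain ⟨h, hndvd, hz⟩ := kill (κ := A ⧸ m) t hty
  obtain ⟨h0, hh0⟩ := Ideal.Quotient.mk_surjective (aeval t h)
  refine ⟨h0, ?_, ?_⟩
  · intro hmem
    obtain ⟨a, ha⟩ := Ideal.Quotient.mk_surjective (h.coeff 0)
    obtain ⟨r, hr⟩ := Ideal.Quotient.mk_surjective (aeval t h.divX)
    have h1 : Ideal.Quotient.mk I h0 = Ideal.Quotient.mk I (r * y + algebraMap A (B0 kb f) a) := by
      rw [hh0, map_add, map_mul, hr]
      have h2 := congrArg (aeval t) (divX_mul_X_add h)
      rw [map_add, map_mul, aeval_X, aeval_C, ← ha] at h2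
      exact h2.symm
    rw [Ideal.Quotient.mk_eq_mk_iff_sub_mem] at h1
    have hIP : I ≤ P := by
      rw [hIϖ]
      exact (Ideal.span_singleton_le_iff_mem P).2 hIP'
    have h2 : algebraMap A (B0 kb f) a ∈ P := by
      have h3 := P.sub_mem hmem (hIP h1)
      rw [sub_sub_cancel] at h3
      exact (Ideal.add_mem_iff_right _ (P.mul_mem_left r hy)).1 h3
    have h4 : a ∉ m := by
      intro h5
      apply hndvd
      rw [← ha]
      exact Ideal.Quotient.eq_zero_iff_mem.2 h5
    have h5 : IsUnit a := by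
      by_contra h6
      exact h4 h6
    exact hPp.ne_top (Ideal.eq_top_of_isUnit_mem _ h2 (h5.map _))
  · have h1 : y * h0 ∈ I := by
      rw [← Ideal.Quotient.eq_zero_iff_mem, map_mul, hh0]
      exact hz
    rw [hIϖ] at h1
    obtain ⟨c, hc⟩ := Ideal.mem_span_singleton'.1 h1
    exact ⟨c, by rw [← hc, mul_comm]⟩

/-- nonzero elements of `B0` are powers of the uniformizer times units -/
lemma coreB (V : ValuationSubring kb) (hA : ∀ a : A, algebraMap A kb a ∈ V)
    (hm : ∀ a ∈ IsLocalRing.maximalIdeal A, algebraMap A kb a ∈ V.nonunits)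
    (hinj : Function.Injective (algebraMap A kb))
    (ϖ : A) (hϖ : Irreducible ϖ) (f : A[X]) (hf : IsUnit f.leadingCoeff)
    (hs : (f.map (IsLocalRing.residue A)).Separable)
    (b : kb) (hb : b ∈ B0 kb f) (hb0 : b ≠ 0) :
    ∃ j : ℕ, V.valuation (b / algebraMap A kb ϖ ^ j) = 1 := by
  have hBV : ∀ x ∈ B0 kb f, x ∈ V := by
    intro x hx
    induction hx using Algebra.adjoin_induction with
    | mem θ hθ => exact root_mem V hA f hf θ hθ
    | algebraMap a => exact hA a
    | add x y _ _ h1 h2 => exact V.add_mem _ _ h1 h2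
    | mul x y _ _ h1 h2 => exact V.mul_mem _ _ h1 h2
  let incl : B0 kb f →+* V :=
    ((B0 kb f).val.toRingHom).codRestrict V.toSubring (fun x => hBV x.1 x.2)
  let P : Ideal (B0 kb f) := (IsLocalRing.maximalIdeal V).comap incl
  haveI hPp : P.IsPrime := Ideal.comap_isPrime _ _
  have hP : ∀ x : B0 kb f, x ∈ P ↔ V.valuation (x : kb) < 1 := fun x =>
    V.valuation_lt_one_iff (incl x)
  have hval : ∀ x : B0 kb f, x ∉ P → V.valuation (x : kb) = 1 := by
    intro x hx
    rw [hP, not_lt] at hx
    exact le_antisymm ((V.valuation_le_one_iff _).2 (hBV x.1 x.2)) hx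
  -- Noetherian
  have hfin : {θ : kb | aeval θ f = 0}.Finite := by
    have hne : f.map (algebraMap A kb) ≠ 0 := by
      intro h0
      have h1 := congrArg (fun g => g.coeff f.natDegree) h0
      simp only [coeff_map, coeff_zero] at h1
      exact (hf.map (algebraMap A kb)).ne_zero h1
    classical
    refine (f.map (algebraMap A kb)).roots.toFinset.finite_toSet.subset ?_
    intro θ hθ
    simp only [Finset.mem_coe, Multiset.mem_toFinset]
    rw [mem_roots hne, IsRoot.def, eval_map]
    exact hθ
  haveI : Algebra.FiniteType A (B0 kb f) :=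
    (Subalgebra.fg_iff_finiteType _).1 (Subalgebra.fg_def.2 ⟨_, hfin, rfl⟩)
  haveI : IsNoetherianRing (B0 kb f) := Algebra.FiniteType.isNoetherianRing A (B0 kb f)
  set ϖB : B0 kb f := algebraMap A (B0 kb f) ϖ with hϖB
  have hϖm : ϖ ∈ IsLocalRing.maximalIdeal A := by
    rw [hϖ.maximalIdeal_eq]; exact Ideal.mem_span_singleton_self _
  have hϖP : ϖB ∈ P := by
    rw [hP]
    exact (ValuationSubring.mem_nonunits_iff V).1 (hm ϖ hϖm)
  have hϖ0 : algebraMap A kb ϖ ≠ 0 := fun h => hϖ.ne_zero (hinj (by rw [h, map_zero]))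
  let Bp := Localization.AtPrime P
  haveI : IsNoetherianRing Bp := IsLocalization.isNoetherianRing P.primeCompl Bp inferInstance
  set M := IsLocalRing.maximalIdeal Bp with hM
  have hMle : M ≤ Ideal.span {algebraMap (B0 kb f) Bp ϖB} := by
    intro x hx
    obtain ⟨y, s, rfl⟩ := IsLocalization.exists_mk'_eq P.primeCompl x
    have hy : y ∈ P := (IsLocalization.AtPrime.mk'_mem_maximal_iff Bp P y s).1 hx
    obtain ⟨h, he, c, hye⟩ := mid (kb := kb) ϖ hϖ f hf hs P hϖP y hy
    rw [← hϖB] at hye
    rw [Ideal.mem_span_singleton']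
    refine ⟨IsLocalization.mk' Bp c (s * ⟨h, he⟩), ?_⟩
    rw [mul_comm, IsLocalization.mul_mk'_eq_mk'_of_mul, IsLocalization.mk'_eq_iff_eq]
    congr 1
    push_cast
    rw [← hye]
    ring
  have hϖM : algebraMap (B0 kb f) Bp ϖB ∈ M :=
    (IsLocalization.AtPrime.to_map_mem_maximal_iff Bp P ϖB).2 hϖP
  have hinjB : Function.Injective (algebraMap (B0 kb f) Bp) :=
    IsLocalization.injective Bp P.primeCompl_le_nonZeroDivisors
  set b' : B0 kb f := ⟨b, hb⟩ with hb'
  have hx0 : algebraMap (B0 kb f) Bp b' ≠ 0 := by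
    rw [map_ne_zero_iff _ hinjB]
    exact fun h => hb0 (congrArg Subtype.val h)
  have hkrull := Ideal.iInf_pow_eq_bot_of_isLocalRing M (IsLocalRing.maximalIdeal.isMaximal Bp).ne_top
  have hex : ∃ n, algebraMap (B0 kb f) Bp b' ∉ M ^ n := by
    by_contra hcon
    push Not at hcon
    apply hx0
    have : algebraMap (B0 kb f) Bp b' ∈ ⨅ i, M ^ i := by
      rw [Ideal.mem_iInf]; exact hcon
    rw [hkrull] at this
    exact this
  classical
  have hn := Nat.find_spec hex
  have hmin := fun m (hm : m < Nat.find hex) => not_not.1 (Nat.find_min hex hm)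
  obtain ⟨j, hj⟩ : ∃ j, Nat.find hex = j + 1 := by
    apply Nat.exists_eq_succ_of_ne_zero
    intro h0
    rw [h0, pow_zero, Ideal.one_eq_top] at hn
    exact hn Submodule.mem_top
  rw [hj] at hn
  have hxj : algebraMap (B0 kb f) Bp b' ∈ M ^ j := hmin j (by omega)
  have hxj' : algebraMap (B0 kb f) Bp b' ∈ Ideal.span {algebraMap (B0 kb f) Bp ϖB ^ j} := by
    rw [← Ideal.span_singleton_pow]
    exact Ideal.pow_right_mono hMle j hxj
  obtain ⟨u, hu⟩ := Ideal.mem_span_singleton'.1 hxj'
  have huM : u ∉ M := by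
    intro h
    apply hn
    rw [← hu, pow_succ']
    exact Ideal.mul_mem_mul h (Ideal.pow_mem_pow hϖM j)
  obtain ⟨c, s, rfl⟩ := IsLocalization.exists_mk'_eq P.primeCompl u
  have hc : c ∉ P := fun h => huM ((IsLocalization.AtPrime.mk'_mem_maximal_iff Bp P c s).2 h)
  have h5 : b' * s = ϖB ^ j * c := by
    apply hinjB
    rw [map_mul, ← hu, map_mul, map_pow]
    have h6 := IsLocalization.mk'_spec Bp c s
    linear_combination (algebraMap (B0 kb f) Bp ϖB ^ j) * h6
  have h7 : b * (s : B0 kb f) = algebraMap A kb ϖ ^ j * c := congrArg Subtype.val h5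
  refine ⟨j, ?_⟩
  have h8 : b / algebraMap A kb ϖ ^ j = (c : kb) / ((s : B0 kb f) : kb) := by
    have hs0 : ((s : B0 kb f) : kb) ≠ 0 := by
      intro h
      have := hval s.1 s.2
      rw [h, map_zero] at this
      exact zero_ne_one this
    rw [div_eq_div_iff (pow_ne_zero _ hϖ0) hs0, h7, mul_comm]
  rw [h8, map_div₀, hval c hc, hval s.1 s.2, div_one]

end main

theorem partB2b : PartB2b.{u, w} := by
  intro A k kb _ _ _ _ _ _ _ _ _ _ _ _ V hA hm ϖ hϖ f hf hs c hc hc0
  have hinj : Function.Injective (algebraMap A kb) := by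
    rw [IsScalarTower.algebraMap_eq A k kb]
    exact (algebraMap k kb).injective.comp (IsFractionRing.injective A k)
  have halg : Algebra.IsAlgebraic k kb := IsAlgClosure.isAlgebraic
  have hc' : c ∈ Algebra.adjoin k {θ : kb | aeval θ f = 0} := by
    rw [← IntermediateField.adjoin_toSubalgebra_of_isAlgebraic
      (fun x _ => Algebra.IsAlgebraic.isAlgebraic x)]
    exact hc
  have h1 : ∃ a : A, a ≠ 0 ∧ algebraMap A kb a * c ∈ B0 kb f := by
    clear hc hc0
    induction hc' using Algebra.adjoin_induction with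
    | mem θ hθ =>
      refine ⟨1, one_ne_zero, ?_⟩
      rw [map_one, one_mul]
      exact Algebra.subset_adjoin hθ
    | algebraMap r =>
      obtain ⟨x, y, hy, rfl⟩ := IsFractionRing.div_surjective (A := A) r
      have hy0 : y ≠ 0 := nonZeroDivisors.ne_zero hy
      refine ⟨y, hy0, ?_⟩
      have h2 : algebraMap A kb y ≠ 0 := fun h => hy0 (hinj (by rw [h, map_zero]))
      have h3 : algebraMap A kb y * algebraMap k kb (algebraMap A k x / algebraMap A k y) =
          algebraMap A kb x := by
        rw [map_div₀, ← IsScalarTower.algebraMap_apply, ← IsScalarTower.algebraMap_apply]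
        field_simp
      rw [h3]
      exact (B0 kb f).algebraMap_mem x
    | add x y _ _ hx hy =>
      obtain ⟨a, ha, ha'⟩ := hx
      obtain ⟨a', h2, h2'⟩ := hy
      refine ⟨a * a', mul_ne_zero ha h2, ?_⟩
      have : algebraMap A kb (a * a') * (x + y) = algebraMap A kb a' * (algebraMap A kb a * x) +
          algebraMap A kb a * (algebraMap A kb a' * y) := by rw [map_mul]; ring
      rw [this]
      exact (B0 kb f).add_mem ((B0 kb f).mul_mem ((B0 kb f).algebraMap_mem a') ha')
        ((B0 kb f).mul_mem ((B0 kb f).algebraMap_mem a) h2')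
    | mul x y _ _ hx hy =>
      obtain ⟨a, ha, ha'⟩ := hx
      obtain ⟨a', h2, h2'⟩ := hy
      refine ⟨a * a', mul_ne_zero ha h2, ?_⟩
      have : algebraMap A kb (a * a') * (x * y) = (algebraMap A kb a * x) *
          (algebraMap A kb a' * y) := by rw [map_mul]; ring
      rw [this]
      exact (B0 kb f).mul_mem ha' h2'
  obtain ⟨a, ha, hac⟩ := h1
  have ha0 : algebraMap A kb a ≠ 0 := fun h => ha (hinj (by rw [h, map_zero]))
  obtain ⟨j, hj⟩ := coreB V hA hm hinj ϖ hϖ f hf hs _ hac (mul_ne_zero ha0 hc0)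
  obtain ⟨i, u, hu⟩ := IsDiscreteValuationRing.eq_unit_mul_pow_irreducible ha hϖ
  have hϖ0 : algebraMap A kb ϖ ≠ 0 := fun h => hϖ.ne_zero (hinj (by rw [h, map_zero]))
  have hu0 : algebraMap A kb (u : A) ≠ 0 := (u.isUnit.map (algebraMap A kb)).ne_zero
  have hvu : V.valuation (algebraMap A kb (u : A)) = 1 := by
    have h2 := (V.valuation_le_one_iff _).2 (hA u)
    have h3 := (V.valuation_le_one_iff _).2 (hA (u⁻¹ : Aˣ))
    have h4 : V.valuation (algebraMap A kb (u : A)) * V.valuation (algebraMap A kb (u⁻¹ : Aˣ)) = 1 := by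
      rw [← map_mul, ← map_mul, Units.mul_inv, map_one, map_one]
    refine le_antisymm h2 ?_
    calc 1 = V.valuation (algebraMap A kb (u : A)) * V.valuation (algebraMap A kb (u⁻¹ : Aˣ)) :=
        h4.symm
      _ ≤ V.valuation (algebraMap A kb (u : A)) * 1 := mul_le_mul_right h3 _
      _ = _ := mul_one _
  refine ⟨(j : ℤ) - i, isU_of_val V ?_⟩
  have h5 : c / algebraMap A kb ϖ ^ ((j : ℤ) - i) =
      (algebraMap A kb a * c / algebraMap A kb ϖ ^ j) / algebraMap A kb (u : A) := by
    rw [zpow_sub₀ hϖ0, zpow_natCast, zpow_natCast, hu, map_mul, map_pow]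
    field_simp
  rw [h5, map_div₀, hj, hvu, div_one]

end Pool.Agent.W623.SecD
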