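import Pool.Agent.W327.SecC.PartB1
import Pool.Agent.W623.SecD.DefsB

/-!
Project SC, part B1: a valuation ring of the algebraic closure above a discrete valuation ring with
finite residue field, and a Frobenius element that stabilises it.
-/

set_option autoImplicit false
set_option linter.unusedSectionVars false

open Polynomial
open scoped Pointwise

namespace Pool.Agent.W623.SecD

open Pool.Agent.W623.SecC

universe u w

open W327.SecC (exists_den nonunits_mul_left)

/-- an algebraic equation over a valuation ring with a unit among the coefficients -/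
theorem exists_prim' {K : Type*} [Field K] {A : Type*} [CommRing A] [IsDomain A] [ValuationRing A]
    [Algebra A K] (hinj : Function.Injective (algebraMap A K)) (x : K) (hx : IsAlgebraic A x) :
    ∃ g : A[X], aeval x g = 0 ∧ ∃ i, IsUnit (g.coeff i) := by
  classical
  obtain ⟨f, hf0, hf⟩ := hx
  have hmin : ∀ s : Finset ℕ, s.Nonempty → ∃ i ∈ s, ∀ j ∈ s, f.coeff i ∣ f.coeff j := by
    intro s hs
    induction hs using Finset.Nonempty.cons_induction with
    | singleton a => exact ⟨a, Finset.mem_singleton_self a, fun j hj => by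
        rw [Finset.mem_singleton.1 hj]⟩
    | cons a s ha hs ih =>
      obtain ⟨i, hi, hij⟩ := ih
      rcases ValuationRing.dvd_total (f.coeff a) (f.coeff i) with h | h
      · refine ⟨a, Finset.mem_cons_self a s, fun j hj => ?_⟩
        rcases Finset.mem_cons.1 hj with rfl | hj
        · exact dvd_rfl
        · exact h.trans (hij j hj)
      · refine ⟨i, Finset.mem_cons_of_mem hi, fun j hj => ?_⟩
        rcases Finset.mem_cons.1 hj with rfl | hj
        · exact h
        · exact hij j hj
  obtain ⟨i, hi, hij⟩ := hmin f.support (Finset.nonempty_iff_ne_empty.2 fun h =>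
    hf0 (support_eq_empty.1 h))
  have hi0 : f.coeff i ≠ 0 := mem_support_iff.1 hi
  have hdvd : C (f.coeff i) ∣ f := by
    rw [C_dvd_iff_dvd_coeff]
    intro j
    by_cases hj : j ∈ f.support
    · exact hij j hj
    · rw [notMem_support_iff.1 hj]
      exact dvd_zero _
  obtain ⟨g, hg⟩ := hdvd
  refine ⟨g, ?_, i, ?_⟩
  · rw [hg, map_mul, aeval_C] at hf
    rcases mul_eq_zero.1 hf with h | h
    · exact absurd (hinj (by rw [h, map_zero])) hi0
    · exact h
  · have h1 : f.coeff i = f.coeff i * g.coeff i := by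
      conv_lhs => rw [hg]
      rw [coeff_C_mul]
    have h2 : g.coeff i = 1 := by
      have h3 : f.coeff i * (g.coeff i - 1) = 0 := by
        rw [mul_sub, ← h1, mul_one, sub_self]
      exact sub_eq_zero.1 ((mul_eq_zero.1 h3).resolve_left hi0)
    rw [h2]
    exact isUnit_one

section main

variable (A k : Type u) (kb : Type w) [CommRing A] [IsDomain A] [ValuationRing A] [Field k]
    [Field kb] [Algebra A k] [Algebra k kb] [Algebra A kb] [IsScalarTower A k kb]
    [IsFractionRing A k] [CharZero k] [IsAlgClosure k kb]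

theorem smulComm : SMulCommClass (kb ≃ₐ[k] kb) A kb := by
  refine ⟨fun g a b => ?_⟩
  rw [AlgEquiv.smul_def, AlgEquiv.smul_def, Algebra.smul_def, Algebra.smul_def, map_mul,
    IsScalarTower.algebraMap_apply A k kb, g.commutes]

theorem isInv : letI := smulComm A k kb
    Algebra.IsInvariant A (integralClosure A kb) (kb ≃ₐ[k] kb) := by
  let _ := smulComm A k kb
  refine ⟨fun b hb => ?_⟩
  have h1 : (b : kb) ∈ (⊥ : IntermediateField k kb) := by
    rw [InfiniteGalois.mem_bot_iff_fixed]
    intro g
    exact congrArg (fun z : integralClosure A kb => (z : kb)) (hb g)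
  obtain ⟨c, hc⟩ := IntermediateField.mem_bot.1 h1
  have h2 : IsIntegral A c := by
    have h3 : IsIntegral A (algebraMap k kb c) := by
      rw [hc]
      exact b.2
    exact (isIntegral_algebraMap_iff (algebraMap k kb).injective).1 h3
  obtain ⟨a, ha⟩ := IsIntegrallyClosed.algebraMap_eq_of_integral h2
  refine ⟨a, ?_⟩
  apply Subtype.ext
  rw [← hc, ← ha]
  exact IsScalarTower.algebraMap_apply A k kb a

theorem exists_frob [Finite (IsLocalRing.ResidueField A)] (P : Ideal (integralClosure A kb))
    [P.IsPrime]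
    (hP : P.comap (algebraMap A (integralClosure A kb)) = IsLocalRing.maximalIdeal A) :
    ∃ g : kb ≃ₐ[k] kb, ∀ (x : integralClosure A kb), ∃ y : integralClosure A kb, (y : kb) = g x ∧
      y - x ^ Nat.card (IsLocalRing.ResidueField A) ∈ P := by
  have := smulComm A k kb
  have := isInv A k kb
  let _ : TopologicalSpace (integralClosure A kb) := ⊥
  have : DiscreteTopology (integralClosure A kb) := ⟨rfl⟩
  have : ContinuousSMul (kb ≃ₐ[k] kb) (integralClosure A kb) := by
    rw [continuousSMul_iff_stabilizer_isOpen]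
    intro x
    have h1 := stabilizer_isOpen_of_isIntegral (K := k) (x : kb)
    convert h1 using 2
    ext g
    rw [MulAction.mem_stabilizer_iff, MulAction.mem_stabilizer_iff]
    constructor
    · intro h
      exact congrArg (fun z : integralClosure A kb => (z : kb)) h
    · intro h
      exact Subtype.ext h
  have hlo : P.LiesOver (IsLocalRing.maximalIdeal A) := ⟨hP.symm⟩
  have hPm : P.IsMaximal := Ideal.isMaximal_of_isIntegral_of_isMaximal_comap P (by
    rw [hP]; infer_instance)
  let _ : Field (A ⧸ IsLocalRing.maximalIdeal A) := Ideal.Quotient.field _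
  let _ : Field (integralClosure A kb ⧸ P) := Ideal.Quotient.field P
  have hfin : Finite (A ⧸ IsLocalRing.maximalIdeal A) :=
    inferInstanceAs (Finite (IsLocalRing.ResidueField A))
  let _ : Fintype (A ⧸ IsLocalRing.maximalIdeal A) := Fintype.ofFinite _
  have hint : Algebra.IsIntegral (A ⧸ IsLocalRing.maximalIdeal A) (integralClosure A kb ⧸ P) :=
    inferInstance
  have halg : Algebra.IsAlgebraic (A ⧸ IsLocalRing.maximalIdeal A) (integralClosure A kb ⧸ P) :=
    Algebra.IsIntegral.isAlgebraic
  obtain ⟨⟨g, hgs⟩, hg⟩ :=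
    Ideal.Quotient.stabilizerHom_surjective_of_profinite (G := (kb ≃ₐ[k] kb))
      (IsLocalRing.maximalIdeal A) P
      (FiniteField.frobeniusAlgEquivOfAlgebraic (A ⧸ IsLocalRing.maximalIdeal A)
        (integralClosure A kb ⧸ P))
  refine ⟨g, fun x => ⟨g • x, rfl, ?_⟩⟩
  have h1 := DFunLike.congr_fun hg (Ideal.Quotient.mk P x)
  rw [Ideal.Quotient.stabilizerHom_apply] at h1
  have h2 : Ideal.Quotient.mk P (g • x) =
    (Ideal.Quotient.mk P x) ^ Fintype.card (A ⧸ IsLocalRing.maximalIdeal A) := h1
  have h3 : Nat.card (IsLocalRing.ResidueField A) =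
      Fintype.card (A ⧸ IsLocalRing.maximalIdeal A) :=
    Nat.card_eq_fintype_card (α := A ⧸ IsLocalRing.maximalIdeal A)
  rw [← Ideal.Quotient.mk_eq_mk_iff_sub_mem, h2, h3, map_pow]

end main

theorem partB1b : Pool.Agent.W623.SecD.PartB1b.{u, w} := by
  intro A k kb _ _ _ _ _ _ _ _ _ _ _ _ _
  have hinj : Function.Injective (algebraMap A kb) := by
    rw [IsScalarTower.algebraMap_eq A k kb]
    exact (algebraMap k kb).injective.comp (IsFractionRing.injective A k)
  obtain ⟨V, hV, hloc⟩ := IsLocalRing.exists_factor_valuationRing (algebraMap A kb)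
  have hunit : ∀ a : A, algebraMap A kb a ∉ V.nonunits ↔ IsUnit a := by
    intro a
    have h1 : (⟨algebraMap A kb a, hV a⟩ : V.toSubring) =
      (algebraMap A kb).codRestrict V.toSubring hV a := rfl
    have h2 : algebraMap A kb a ∈ V.nonunits ↔
        (⟨algebraMap A kb a, hV a⟩ : V) ∈ IsLocalRing.maximalIdeal V :=
      V.coe_mem_nonunits_iff (a := ⟨algebraMap A kb a, hV a⟩)
    rw [h2, IsLocalRing.mem_maximalIdeal, mem_nonunits_iff, not_not]
    constructor
    · intro h
      exact hloc.map_nonunit a h
    · intro h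
      exact h.map ((algebraMap A kb).codRestrict V.toSubring hV)
  have hBV : ∀ x : integralClosure A kb, (x : kb) ∈ V := by
    intro x
    have h1 : IsIntegral A (x : kb) := x.2
    have h2 : IsIntegral V (x : kb) := by
      obtain ⟨f, hf, hfx⟩ := h1
      refine ⟨f.map ((algebraMap A kb).codRestrict V.toSubring hV), hf.map _, ?_⟩
      rw [eval₂_map]
      exact hfx
    obtain ⟨y, hy⟩ := IsIntegrallyClosed.algebraMap_eq_of_integral (R := V) (K := kb) h2
    rw [← hy]
    exact y.2
  -- the prime
  set P : Ideal (integralClosure A kb) :=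
    (IsLocalRing.maximalIdeal V).comap (((algebraMap (integralClosure A kb) kb).codRestrict
      V.toSubring hBV) : integralClosure A kb →+* V) with hPdef
  have hPmem : ∀ x : integralClosure A kb, x ∈ P ↔ (x : kb) ∈ V.nonunits := by
    intro x
    exact (V.coe_mem_nonunits_iff (a := ⟨(x : kb), hBV x⟩)).symm
  have hPp : P.IsPrime := Ideal.comap_isPrime _ _
  have hPA : P.comap (algebraMap A (integralClosure A kb)) = IsLocalRing.maximalIdeal A := by
    ext a
    rw [Ideal.mem_comap, hPmem, IsLocalRing.mem_maximalIdeal, mem_nonunits_iff, ← hunit, not_not]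
    rfl
  obtain ⟨g, hg⟩ := exists_frob A k kb P hPA
  set q := Nat.card (IsLocalRing.ResidueField A) with hq
  have hgB : ∀ x : integralClosure A kb, g x ∈ V ∧ g x - (x : kb) ^ q ∈ V.nonunits := by
    intro x
    obtain ⟨y, hy, hyP⟩ := hg x
    rw [← hy]
    refine ⟨hBV y, ?_⟩
    rw [hPmem] at hyP
    exact hyP
  have hne : ∀ x y : kb, x - y ∈ V.nonunits → y ∉ V.nonunits → x ∉ V.nonunits := by
    intro x y hxy hy hx
    apply hy
    have h1 := V.nonunits.sub_mem hx hxy
    rwa [sub_sub_cancel] at h1
  have hv1 : ∀ x : kb, x ∈ V → x ∉ V.nonunits → V.valuation x = 1 := by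
    intro x hx hx'
    rw [V.mem_nonunits_iff, not_lt] at hx'
    exact le_antisymm ((V.valuation_le_one_iff x).2 hx) hx'
  have key : ∀ x ∈ V, g x ∈ V ∧ g x - x ^ q ∈ V.nonunits := by
    intro x hx
    have halg : IsAlgebraic A x :=
      (IsFractionRing.isAlgebraic_iff A k kb).2 (Algebra.IsAlgebraic.isAlgebraic (R := k) x)
    obtain ⟨f, hf, i, hi⟩ := exists_prim' hinj x halg
    obtain ⟨s, hs, hsx⟩ := exists_den V A x hx _ (f.map (algebraMap A (integralClosure A kb)))
      le_rfl (by rw [aeval_map_algebraMap, hf]) ⟨i, by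
        rw [coeff_map]
        exact (hunit _).2 hi⟩
    set b : integralClosure A kb := ⟨(s : kb) * x, hsx⟩ with hb
    have hbx : (b : kb) = s * x := rfl
    obtain ⟨hgs, hgs'⟩ := hgB s
    obtain ⟨hgb, hgb'⟩ := hgB b
    have vs : V.valuation (s : kb) = 1 := hv1 _ (hBV s) hs
    have hs0 : (s : kb) ≠ 0 := by
      intro h
      rw [h, map_zero] at vs
      exact zero_ne_one vs
    have hsq : V.valuation ((s : kb) ^ q) = 1 := by rw [map_pow, vs, one_pow]
    have vgs : V.valuation (g s) = 1 := by
      refine hv1 _ hgs (hne _ ((s : kb) ^ q) hgs' ?_)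
      rw [V.mem_nonunits_iff, hsq]
      exact lt_irrefl _
    have hgs0 : g (s : kb) ≠ 0 := by
      intro h
      rw [h, map_zero] at vgs
      exact zero_ne_one vgs
    have hgx : g x = g b / g s := by
      rw [hbx, map_mul, mul_div_cancel_left₀ _ hgs0]
    have hxb : x = b / s := by rw [hbx, mul_div_cancel_left₀ _ hs0]
    refine ⟨?_, ?_⟩
    · rw [← V.valuation_le_one_iff, hgx, map_div₀, vgs, div_one, V.valuation_le_one_iff]
      exact hgb
    · have h1 : g x - x ^ q = ((g b - (b : kb) ^ q) * (s : kb) ^ q -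
          (g s - (s : kb) ^ q) * (b : kb) ^ q) / (g s * (s : kb) ^ q) := by
        have h0 : x ^ q = (b : kb) ^ q / (s : kb) ^ q := by rw [← div_pow, ← hxb]
        have hsq0 : (s : kb) ^ q ≠ 0 := pow_ne_zero _ hs0
        rw [hgx, h0]
        field_simp
        ring
      rw [V.mem_nonunits_iff, h1, map_div₀, map_mul V.valuation (g s), vgs, hsq, mul_one, div_one,
        ← V.mem_nonunits_iff]
      exact V.nonunits.sub_mem (nonunits_mul_left V hgb' (V.pow_mem (hBV s) q))
        (nonunits_mul_left V hgs' (V.pow_mem (hBV b) q))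
  have hq0 : q ≠ 0 := Nat.card_pos.ne'
  refine ⟨V, g, hV, ?_, ?_, fun x hx => (key x hx).2⟩
  · intro a ha
    by_contra h
    exact ha ((hunit a).1 h)
  · intro x
    refine ⟨fun hgx => ?_, fun hx => (key x hx).1⟩
    by_contra hx
    have hx0 : x ≠ 0 := by
      rintro rfl
      exact hx V.zero_mem
    have h1 : x⁻¹ ∈ V.nonunits := by
      rw [V.inv_mem_nonunits_iff]
      exact Or.inr hx
    have h2 := (key x⁻¹ (V.nonunits_subset h1)).2
    have h3 : (x⁻¹) ^ q ∈ V.nonunits := by
      obtain ⟨m, hm⟩ := Nat.exists_eq_succ_of_ne_zero hq0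
      rw [hm, pow_succ, mul_comm]
      exact nonunits_mul_left V h1 (V.pow_mem (V.nonunits_subset h1) m)
    have h4 : g x⁻¹ ∈ V.nonunits := by
      have := V.nonunits.add_mem h2 h3
      rwa [sub_add_cancel] at this
    rw [map_inv₀, V.inv_mem_nonunits_iff] at h4
    rcases h4 with h4 | h4
    · exact hx0 (g.injective (by rw [h4, map_zero]))
    · exact h4 hgx

end Pool.Agent.W623.SecD
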