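import Pool.Agent.W623.SecC.Red

/-! # A coarser valuation ring, and separability from distinct roots -/

namespace Pool.Agent.W623.SecC

open Polynomial

section ov

variable {k kb : Type*} [Field k] [Field kb] [Algebra k kb] (O A : ValuationSubring k)
  (hOA : O ≤ A) (V' : ValuationSubring kb) (hV' : ∀ a ∈ O, algebraMap k kb a ∈ V')
  (hm' : ∀ a ∈ O.nonunits, algebraMap k kb a ∈ V'.nonunits)

/-- the subring generated by `V'` and `A` -/
def overSub (hV' : ∀ a ∈ O, algebraMap k kb a ∈ V') : Subring kb where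
  carrier := {z | ∃ a ∈ A, ∃ x ∈ V', z = x * algebraMap k kb a}
  zero_mem' := ⟨1, one_mem _, 0, zero_mem _, by rw [zero_mul]⟩
  one_mem' := ⟨1, one_mem _, 1, one_mem _, by rw [map_one, mul_one]⟩
  mul_mem' := by
    rintro _ _ ⟨a, ha, x, hx, rfl⟩ ⟨b, hb, y, hy, rfl⟩
    exact ⟨a * b, mul_mem ha hb, x * y, mul_mem hx hy, by rw [map_mul]; ring⟩
  neg_mem' := by
    rintro _ ⟨a, ha, x, hx, rfl⟩
    exact ⟨a, ha, -x, neg_mem hx, by ring⟩
  add_mem' := by
    rintro _ _ ⟨a, ha, x, hx, rfl⟩ ⟨b, hb, y, hy, rfl⟩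
    by_cases hb0 : b = 0
    · exact ⟨a, ha, x, hx, by rw [hb0, map_zero, mul_zero, add_zero]⟩
    by_cases ha0 : a = 0
    · exact ⟨b, hb, y, hy, by rw [ha0, map_zero, mul_zero, zero_add]⟩
    rcases O.mem_or_inv_mem (a / b) with h | h
    · refine ⟨b, hb, x * algebraMap k kb (a / b) + y, add_mem (mul_mem hx (hV' _ h)) hy, ?_⟩
      have h0 : algebraMap k kb b ≠ 0 := (_root_.map_ne_zero _).2 hb0
      rw [map_div₀]
      field_simp
    · refine ⟨a, ha, x + y * algebraMap k kb (a / b)⁻¹, add_mem hx (mul_mem hy (hV' _ h)), ?_⟩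
      have h0 : algebraMap k kb a ≠ 0 := (_root_.map_ne_zero _).2 ha0
      rw [inv_div, map_div₀]
      field_simp

/-- the valuation ring generated by `V'` and `A` -/
def overV : ValuationSubring kb :=
  ValuationSubring.ofLE V' (overSub O A V' hV') (fun x hx =>
    ⟨1, one_mem _, x, hx, by rw [map_one, mul_one]⟩)

lemma mem_over {z : kb} : z ∈ overV O A V' hV' ↔ ∃ a ∈ A, ∃ x ∈ V', z = x * algebraMap k kb a :=
  Iff.rfl

lemma le_over : V' ≤ overV O A V' hV' := fun x hx =>
  (mem_over O A V' hV').2 ⟨1, one_mem _, x, hx, by rw [map_one, mul_one]⟩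

lemma map_mem_over {a : k} (ha : a ∈ A) : algebraMap k kb a ∈ overV O A V' hV' :=
  (mem_over O A V' hV').2 ⟨a, ha, 1, one_mem _, by rw [one_mul]⟩

include hOA hm' in
lemma map_nonunit_over {a : k} (ha : a ∈ A.nonunits) :
    algebraMap k kb a ∈ (overV O A V' hV').nonunits := by
  rw [ValuationSubring.mem_nonunits_iff_or]
  by_cases ha0 : a = 0
  · exact Or.inl (by rw [ha0, map_zero])
  refine Or.inr fun h => ?_
  obtain ⟨b, hb, x, hx, hxb⟩ := (mem_over O A V' hV').1 h
  have hb0 : b ≠ 0 := by
    rintro rfl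
    rw [map_zero, mul_zero] at hxb
    exact inv_ne_zero ((_root_.map_ne_zero _).2 ha0) hxb
  have h1 : a * b ∈ A.nonunits := by
    rw [mul_comm]
    exact nonunit_mul hb ha
  have h2 : (a * b)⁻¹ ∉ O := by
    intro h3
    rw [ValuationSubring.mem_nonunits_iff_or] at h1
    rcases h1 with h1 | h1
    · exact mul_ne_zero ha0 hb0 h1
    · exact h1 (hOA h3)
  have h3 : a * b ∈ O.nonunits := by
    rw [ValuationSubring.mem_nonunits_iff_or]
    exact Or.inr h2
  have h4 := hm' _ h3
  have h5 : x * algebraMap k kb (a * b) ∈ V'.nonunits := nonunit_mul hx h4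
  have ha1 : algebraMap k kb a ≠ 0 := (_root_.map_ne_zero _).2 ha0
  have h6 : x * algebraMap k kb (a * b) = 1 := by
    rw [map_mul]
    have : x * (algebraMap k kb a * algebraMap k kb b) =
      (x * algebraMap k kb b) * algebraMap k kb a := by ring
    rw [this, ← hxb, inv_mul_cancel₀ ha1]
  rw [h6] at h5
  exact (isU_one (V := V')).not_nonunit h5

lemma over_stable (φ : kb ≃ₐ[k] kb) (hφ : ∀ x, φ x ∈ V' ↔ x ∈ V') (x : kb) :
    φ x ∈ overV O A V' hV' ↔ x ∈ overV O A V' hV' := by
  rw [mem_over, mem_over]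
  constructor
  · rintro ⟨a, ha, y, hy, h⟩
    refine ⟨a, ha, φ.symm y, ?_, ?_⟩
    · rw [← hφ, φ.apply_symm_apply]
      exact hy
    · apply φ.injective
      rw [h, map_mul, φ.apply_symm_apply, φ.commutes]
  · rintro ⟨a, ha, y, hy, h⟩
    refine ⟨a, ha, φ y, (hφ y).2 hy, ?_⟩
    rw [h, map_mul, φ.commutes]

end ov

section sep

variable {A kb : Type*} [CommRing A] [IsLocalRing A] [Field kb] [Algebra A kb]
  (V : ValuationSubring kb) (hV : ∀ a : A, algebraMap A kb a ∈ V)
  (hm : ∀ a ∈ IsLocalRing.maximalIdeal A, algebraMap A kb a ∈ V.nonunits)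

include hV hm in
/-- separability from distinct roots -/
theorem sep_of_dist [IsAlgClosed kb] (f : A[X]) (hf : IsUnit f.leadingCoeff)
    (hnd : (f.map (algebraMap A kb)).roots.Nodup)
    (hd : ∀ θ ∈ (f.map (algebraMap A kb)).roots, ∀ θ' ∈ (f.map (algebraMap A kb)).roots, θ ≠ θ' →
        IsU V (θ - θ')) :
    (f.map (IsLocalRing.residue A)).Separable := by
  classical
  set R := (f.map (algebraMap A kb)).roots with hR
  have hlc0 : algebraMap A kb f.leadingCoeff ≠ 0 := (hf.map (algebraMap A kb)).ne_zero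
  have hf0 : f.map (algebraMap A kb) ≠ 0 := by
    intro h
    apply hlc0
    rw [← leadingCoeff_map_of_leadingCoeff_ne_zero _ hlc0, h, leadingCoeff_zero]
  have hRV : ∀ θ ∈ R, θ ∈ V := by
    intro θ hθ
    refine Pool.Agent.W308.SecC.root_mem V hV f hf θ ?_
    rw [hR, mem_roots hf0, IsRoot.def, eval_map] at hθ
    exact hθ
  set R' : Multiset V := R.pmap (fun θ h => (⟨θ, h⟩ : V)) hRV with hR'
  have hR'R : R'.map (V.subtype) = R := by
    rw [hR', Multiset.map_pmap]
    exact (Multiset.pmap_eq_map _ _ _ _).trans (Multiset.map_id _)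
  have hsub : V.subtype.comp (toV V hV) = algebraMap A kb := by
    ext a
    rfl
  have hprod : f.map (toV V hV) = C (toV V hV f.leadingCoeff) *
      (R'.map (fun a => X - C a)).prod := by
    apply map_injective V.subtype V.subtype_injective
    rw [Polynomial.map_map, hsub, Polynomial.map_mul, map_C, Polynomial.map_multiset_prod,
      Multiset.map_map]
    have h1 := (IsAlgClosed.splits (f.map (algebraMap A kb))).eq_prod_roots
    rw [leadingCoeff_map_of_leadingCoeff_ne_zero _ hlc0, ← hR, ← hR'R, Multiset.map_map] at h1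
    conv_lhs => rw [h1]
    congr 2
    refine Multiset.map_congr rfl fun a _ => ?_
    simp
  have hprod' : (f.map (IsLocalRing.residue A)).map (resMap V hV hm) =
      C (IsLocalRing.residue V (toV V hV f.leadingCoeff)) *
      ((R'.map (IsLocalRing.residue V)).map (fun a => X - C a)).prod := by
    rw [Polynomial.map_map, resMap_comp, ← Polynomial.map_map, hprod, Polynomial.map_mul, map_C,
      Polynomial.map_multiset_prod, Multiset.map_map, Multiset.map_map]
    congr 2
    refine Multiset.map_congr rfl fun a _ => ?_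
    simp
  have hR'nd : R'.Nodup := by
    have h1 : (R'.map V.subtype).Nodup := by rw [hR'R]; exact hnd
    exact h1.of_map
  have hnd' : (R'.map (IsLocalRing.residue V)).Nodup := by
    refine hR'nd.map_on ?_
    intro x hx y hy hxy
    by_contra hne
    have hx' : (x : kb) ∈ R := by
      rw [← hR'R]
      exact Multiset.mem_map_of_mem _ hx
    have hy' : (y : kb) ∈ R := by
      rw [← hR'R]
      exact Multiset.mem_map_of_mem _ hy
    have h1 := hd x hx' y hy' (fun h => hne (Subtype.ext h))
    apply h1.not_nonunit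
    have h2 : IsLocalRing.residue V (x - y) = 0 := by rw [map_sub, hxy, sub_self]
    exact nonunit_of_residue V h2
  rw [← separable_map (resMap V hV hm), hprod']
  refine Separable.unit_mul ?_ ?_
  · exact isUnit_C.2 ((hf.map (toV V hV)).map (IsLocalRing.residue V))
  · have h1 : ((R'.map (IsLocalRing.residue V)).map (fun a => X - C a)).prod =
        ∏ a ∈ (R'.map (IsLocalRing.residue V)).toFinset, (X - C a) := by
      rw [Finset.prod, Multiset.toFinset_val, Multiset.dedup_eq_self.2 hnd']
    rw [h1]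
    exact separable_prod_X_sub_C_iff'.2 (fun x _ y _ h => h)

end sep

end Pool.Agent.W623.SecC
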