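import Pool.Agent.W623.SecC.All
import Pool.Agent.W623.SecD.MainB
import Pool.Agent.W623.SecD.A8b
import Pool.Agent.W623.SecD.B2b

/-! # The theorem for valuation rings of higher rank, without hypotheses -/

namespace Pool.Agent.W623.SecC

open Pool.Agent.W620.SC Polynomial Pool.Agent.W623.SecD

universe u v w

theorem allA8b : PartA8b.{u, v} :=
  partA8b (Pool.Agent.W52.SecC.A2.partA2 Pool.Agent.W337.SecC.partA1)
    Pool.Agent.W52.SecC.A3.partA3
    (Pool.Agent.W337.SecC.partA4 Pool.Agent.W337.SecC.partA1 Pool.Agent.W52.SecC.A3.partA3)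
    Pool.Agent.W417.SecC.A5.partA5 allA6

section

variable {k : Type u} [Field k] [CharZero k]
    (O A : ValuationSubring k) (hOA : O ≤ A) [IsDiscreteValuationRing A]
    (f : O[X]) (hlc : IsUnit f.leadingCoeff)
    (ϖ : A) (hϖ : Irreducible ϖ) (a : k) (t : A) (ht : IsUnit t) (m : ℤ) (hm : Odd m)
    (ha : a = algebraMap A k t * algebraMap A k ϖ ^ m)

include hOA hlc hϖ ht hm ha

theorem local_no_sectionB [Finite (IsLocalRing.ResidueField O)] {F : Type v} {Ω : Type w}
    [Field F] [Field Ω] [Algebra k F] [Algebra F Ω]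
    [Algebra k Ω] [IsScalarTower k F Ω] [IsAlgClosed Ω] [Algebra.IsAlgebraic F Ω]
    (h2 : IsUnit (2 : O))
    (hs : (f.map (IsLocalRing.residue O)).Separable) (hev : Even f.natDegree)
    (h4 : 4 ≤ f.natDegree) (hroot : ∀ b : O, f.eval b ∉ IsLocalRing.maximalIdeal O)
    (U : Set (ValuationSubring F)) (hU : ∀ O ∈ U, ∀ c : k, algebraMap k F c ∈ O)
    (x y : F) (hxy : algebraMap k F a * y ^ 2 = aeval x (f.map (algebraMap O k))) :
    IsEmpty (GSection k F Ω U) :=
  local_no_sectionB' O A hOA allA7 allA8b partB2b h2 f hlc hs hev h4 hroot ϖ hϖ a t ht m hm ha U hU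
    x y hxy

omit [CharZero k] in

theorem no_affine_pointB (hev : Even f.natDegree)
    (hroot : ∀ b : O, f.eval b ∉ IsLocalRing.maximalIdeal O) (x y : k) :
    a * y ^ 2 ≠ (f.map (algebraMap O k)).eval x := by
  let i : O →+* A := ValuationSubring.inclusion O A hOA
  have hi : (algebraMap A k).comp i = algebraMap O k := by
    ext b
    rfl
  have hilc : IsUnit (i f.leadingCoeff) := hlc.map i
  have hlcA : (f.map i).leadingCoeff = i f.leadingCoeff :=
    leadingCoeff_map_of_leadingCoeff_ne_zero _ hilc.ne_zero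
  have hdeg : (f.map i).natDegree = f.natDegree :=
    natDegree_map_of_leadingCoeff_ne_zero _ hilc.ne_zero
  have hmap : (f.map i).map (algebraMap A k) = f.map (algebraMap O k) := by
    rw [Polynomial.map_map, hi]
  have hnon : ∀ z : A, z ∈ IsLocalRing.maximalIdeal A → (z : k) ∈ O.nonunits := by
    intro z hz
    have h1 : (z : k) ∈ A.nonunits := (ValuationSubring.coe_mem_nonunits_iff).2 hz
    rw [ValuationSubring.mem_nonunits_iff_or] at h1 ⊢
    rcases h1 with h1 | h1
    · exact Or.inl h1
    · exact Or.inr fun h2 => h1 (hOA h2)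
  have hrootA : ∀ b : A, (f.map i).eval b ∉ IsLocalRing.maximalIdeal A := by
    intro b hb
    have h1 := hnon _ hb
    have hval : (((f.map i).eval b : A) : k) = (f.map (algebraMap O k)).eval (b : k) := by
      rw [← hmap, eval_map (algebraMap A k)]
      exact (eval₂_at_apply (algebraMap A k) b).symm
    rw [hval] at h1
    by_cases hbO : (b : k) ∈ O
    · refine hroot ⟨b, hbO⟩ ?_
      rw [← ValuationSubring.coe_mem_nonunits_iff]
      have h2 : ((f.eval (⟨b, hbO⟩ : O) : O) : k) = (f.map (algebraMap O k)).eval (b : k) := by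
        rw [eval_map (algebraMap O k)]
        exact (eval₂_at_apply (algebraMap O k) (⟨b, hbO⟩ : O)).symm
      rw [h2]
      exact h1
    · have hb0 : (b : k) ≠ 0 := by
        intro h
        rw [h] at hbO
        exact hbO (zero_mem _)
      have hbn : (b : k)⁻¹ ∈ O.nonunits := (O.inv_mem_nonunits_iff).2 (Or.inr hbO)
      have hbi : (b : k)⁻¹ ∈ O := O.nonunits_subset hbn
      let _ := invertibleOfNonzero hb0
      have h2 := Polynomial.eval₂_reverse_mul_pow (algebraMap O k) (b : k) f
      rw [invOf_eq_inv] at h2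
      have h3 : eval₂ (algebraMap O k) ((b : k)⁻¹) (reverse f) =
          algebraMap O k f.leadingCoeff +
            eval₂ (algebraMap O k) ((b : k)⁻¹) (reverse f).divX * (b : k)⁻¹ := by
        conv_lhs => rw [← divX_mul_X_add (reverse f)]
        rw [eval₂_add, eval₂_mul, eval₂_X, eval₂_C, coeff_zero_reverse, add_comm]
      have h4 : IsU O (eval₂ (algebraMap O k) ((b : k)⁻¹) (reverse f)) := by
        rw [h3]
        refine isU_add_nonunit ?_ (nonunit_mul ?_ hbn)
        · obtain ⟨u, hu⟩ := hlc
          rw [← hu]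
          refine ⟨(u.isUnit.map (algebraMap O k)).ne_zero, (u : O).2, ?_⟩
          have h5 : (algebraMap O k (u : O))⁻¹ = algebraMap O k ((u⁻¹ : Oˣ) : O) := by
            refine inv_eq_of_mul_eq_one_right ?_
            rw [← map_mul, Units.mul_inv, map_one]
          rw [h5]
          exact ((u⁻¹ : Oˣ) : O).2
        · have h5 : eval₂ (algebraMap O k) (algebraMap O k ⟨_, hbi⟩) (reverse f).divX =
              algebraMap O k ((reverse f).divX.eval ⟨_, hbi⟩) := eval₂_at_apply _ _
          have h6 : algebraMap O k ⟨_, hbi⟩ = (b : k)⁻¹ := rfl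
          rw [h6] at h5
          rw [h5]
          exact ((reverse f).divX.eval (⟨_, hbi⟩ : O)).2
      rw [eval_map (algebraMap O k), ← h2] at h1
      have h7 : (b : k) ^ f.natDegree ∈ O.nonunits := by
        have h8 := nonunit_mul h4.2.2 h1
        rwa [← mul_assoc, inv_mul_cancel₀ h4.1, one_mul] at h8
      apply hbO
      rcases Nat.eq_zero_or_pos f.natDegree with h9 | h9
      · exfalso
        rw [h9, pow_zero] at h7
        exact (isU_one (V := O)).not_nonunit h7
      · exact mem_of_pow_mem h9 (O.nonunits_subset h7)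
  rw [← hmap]
  exact no_affine_point ϖ hϖ (f.map i) (by rw [hlcA]; exact hilc) (by rw [hdeg]; exact hev) hrootA a
    t ht m hm ha x y

omit [CharZero k] in

theorem no_infinite_pointB (r : k) :
    a * r ^ 2 ≠ (f.map (algebraMap O k)).leadingCoeff := by
  let i : O →+* A := ValuationSubring.inclusion O A hOA
  have hi : (algebraMap A k).comp i = algebraMap O k := by
    ext b
    rfl
  have hilc : IsUnit (i f.leadingCoeff) := hlc.map i
  have hlcA : (f.map i).leadingCoeff = i f.leadingCoeff :=
    leadingCoeff_map_of_leadingCoeff_ne_zero _ hilc.ne_zero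
  rw [leadingCoeff_map_of_injective (IsFractionRing.injective O k)]
  intro h
  refine no_infinite_point ϖ hϖ (f.map i) (by rw [hlcA]; exact hilc) a t ht m hm ha r ?_
  rw [h, hlcA]
  rfl

end

end Pool.Agent.W623.SecC
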