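import Pool.Agent.W623.SecD.AllB
import Pool.Agent.W623.SecC.Prime
import Pool.Agent.W723.SecC.D1d
import Pool.Agent.W52.SecC.D3

/-! # Composite valuation rings; residue field a number field -/

namespace Pool.Agent.W623.SecC

open Pool.Agent.W620.SC Polynomial NumberField IsDedekindDomain

universe u u' v w

section comp

variable {k : Type u} {K : Type u'} [Field k] [Field K] (A : ValuationSubring k) (ρ : A →+* K)
  (hρ : Function.Surjective ρ) (B : Type*) [CommRing B] [IsDomain B] [ValuationRing B] [Algebra B K]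
  [IsFractionRing B K]

include hρ in
lemma ρ_nonunit {x : A} (hx : (x : k)⁻¹ ∉ A) : ρ x = 0 := by
  have hker : (RingHom.ker ρ).IsMaximal := RingHom.ker_isMaximal_of_surjective ρ hρ
  have h1 : RingHom.ker ρ = IsLocalRing.maximalIdeal A := IsLocalRing.eq_maximalIdeal hker
  have h2 : x ∈ IsLocalRing.maximalIdeal A := by
    rw [← ValuationSubring.coe_mem_nonunits_iff, ValuationSubring.mem_nonunits_iff_or]
    exact Or.inr hx
  rw [← h1] at h2
  exact h2

/-- the composite of the valuation rings `A` and `B` -/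
def compV : ValuationSubring k where
  carrier := {x | ∃ (h : x ∈ A) (b : B), algebraMap B K b = ρ ⟨x, h⟩}
  zero_mem' := ⟨zero_mem _, 0, by
    have : (⟨0, zero_mem _⟩ : A) = 0 := rfl
    rw [this, map_zero, map_zero]⟩
  one_mem' := ⟨one_mem _, 1, by
    have : (⟨1, one_mem _⟩ : A) = 1 := rfl
    rw [this, map_one, map_one]⟩
  mul_mem' := by
    rintro x y ⟨hx, b, hb⟩ ⟨hy, c, hc⟩
    refine ⟨mul_mem hx hy, b * c, ?_⟩
    have : (⟨x * y, mul_mem hx hy⟩ : A) = ⟨x, hx⟩ * ⟨y, hy⟩ := rfl
    rw [this, map_mul, map_mul, hb, hc]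
  add_mem' := by
    rintro x y ⟨hx, b, hb⟩ ⟨hy, c, hc⟩
    refine ⟨add_mem hx hy, b + c, ?_⟩
    have : (⟨x + y, add_mem hx hy⟩ : A) = ⟨x, hx⟩ + ⟨y, hy⟩ := rfl
    rw [this, map_add, map_add, hb, hc]
  neg_mem' := by
    rintro x ⟨hx, b, hb⟩
    refine ⟨neg_mem hx, -b, ?_⟩
    have : (⟨-x, neg_mem hx⟩ : A) = -⟨x, hx⟩ := rfl
    rw [this, map_neg, map_neg, hb]
  mem_or_inv_mem' := by
    intro x
    by_cases hx : x ∈ A
    · by_cases hx' : x⁻¹ ∈ A
      · rcases ValuationRing.isInteger_or_isInteger B (ρ ⟨x, hx⟩) with ⟨b, hb⟩ | ⟨b, hb⟩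
        · exact Or.inl ⟨hx, b, hb⟩
        · by_cases hx0 : x = 0
          · left
            refine ⟨hx, 0, ?_⟩
            have : (⟨x, hx⟩ : A) = 0 := Subtype.ext hx0
            rw [this, map_zero, map_zero]
          · right
            refine ⟨hx', b, ?_⟩
            rw [hb]
            refine inv_eq_of_mul_eq_one_right ?_
            rw [← map_mul]
            have : (⟨x, hx⟩ : A) * ⟨x⁻¹, hx'⟩ = 1 := Subtype.ext (mul_inv_cancel₀ hx0)
            rw [this, map_one]
      · left
        exact ⟨hx, 0, by rw [map_zero, ρ_nonunit A ρ hρ hx']⟩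
    · right
      have hx' : x⁻¹ ∈ A := (A.mem_or_inv_mem x).resolve_left hx
      exact ⟨hx', 0, by
        rw [map_zero, ρ_nonunit A ρ hρ]
        rw [inv_inv]
        exact hx⟩

variable {B}

lemma mem_compV {x : k} : x ∈ compV A ρ hρ B ↔ ∃ (h : x ∈ A) (b : B), algebraMap B K b = ρ ⟨x, h⟩ :=
  Iff.rfl

lemma compV_le : compV A ρ hρ B ≤ A := fun x hx => ((mem_compV A ρ hρ).1 hx).1

variable (B)

/-- the map from the composite to `B` -/
noncomputable def compTo : compV A ρ hρ B →+* B where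
  toFun x := Classical.choose ((mem_compV A ρ hρ).1 x.2).2
  map_one' := by
    apply IsFractionRing.injective B K
    rw [Classical.choose_spec ((mem_compV A ρ hρ).1 (1 : compV A ρ hρ B).2).2, map_one]
    exact map_one ρ
  map_zero' := by
    apply IsFractionRing.injective B K
    rw [Classical.choose_spec ((mem_compV A ρ hρ).1 (0 : compV A ρ hρ B).2).2, map_zero]
    exact map_zero ρ
  map_mul' x y := by
    apply IsFractionRing.injective B K
    rw [Classical.choose_spec ((mem_compV A ρ hρ).1 (x * y).2).2, map_mul,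
      Classical.choose_spec ((mem_compV A ρ hρ).1 x.2).2,
      Classical.choose_spec ((mem_compV A ρ hρ).1 y.2).2, ← map_mul]
    rfl
  map_add' x y := by
    apply IsFractionRing.injective B K
    rw [Classical.choose_spec ((mem_compV A ρ hρ).1 (x + y).2).2, map_add,
      Classical.choose_spec ((mem_compV A ρ hρ).1 x.2).2,
      Classical.choose_spec ((mem_compV A ρ hρ).1 y.2).2, ← map_add]
    rfl

lemma compTo_spec (x : compV A ρ hρ B) :
    algebraMap B K (compTo A ρ hρ B x) = ρ ⟨x, compV_le A ρ hρ x.2⟩ :=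
  Classical.choose_spec ((mem_compV A ρ hρ).1 x.2).2

lemma compTo_surjective : Function.Surjective (compTo A ρ hρ B) := by
  intro b
  obtain ⟨⟨x, hx⟩, h⟩ := hρ (algebraMap B K b)
  refine ⟨⟨x, (mem_compV A ρ hρ).2 ⟨hx, b, h.symm⟩⟩, ?_⟩
  apply IsFractionRing.injective B K
  rw [compTo_spec]
  exact h

lemma compTo_local : IsLocalHom (compTo A ρ hρ B) := by
  refine ⟨fun x hx => ?_⟩
  obtain ⟨u, hu⟩ := hx
  have hxA : (x : k) ∈ A := compV_le A ρ hρ x.2
  have h1 : ρ ⟨x, hxA⟩ ≠ 0 := by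
    rw [← compTo_spec, ← hu]
    exact (u.isUnit.map (algebraMap B K)).ne_zero
  have hinv : (x : k)⁻¹ ∈ A := by
    by_contra h
    exact h1 (ρ_nonunit A ρ hρ (x := ⟨x, hxA⟩) h)
  have hx0 : (x : k) ≠ 0 := by
    intro h
    apply h1
    have : (⟨x, hxA⟩ : A) = 0 := Subtype.ext h
    rw [this, map_zero]
  have hmem : (x : k)⁻¹ ∈ compV A ρ hρ B := by
    refine (mem_compV A ρ hρ).2 ⟨hinv, ((u⁻¹ : Bˣ) : B), ?_⟩
    have h2 : ρ ⟨x, hxA⟩ * ρ ⟨(x : k)⁻¹, hinv⟩ = 1 := by
      rw [← map_mul]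
      have : (⟨x, hxA⟩ : A) * ⟨(x : k)⁻¹, hinv⟩ = 1 := Subtype.ext (mul_inv_cancel₀ hx0)
      rw [this, map_one]
    have h3 : ρ ⟨x, hxA⟩ * algebraMap B K ((u⁻¹ : Bˣ) : B) = 1 := by
      rw [← compTo_spec, ← hu, ← map_mul, Units.mul_inv, map_one]
    exact mul_left_cancel₀ h1 (h3.trans h2.symm)
  refine IsUnit.of_mul_eq_one ⟨(x : k)⁻¹, hmem⟩ ?_
  exact Subtype.ext (mul_inv_cancel₀ hx0)

end comp

section numfield

variable {k : Type u} [Field k] [CharZero k] (A : ValuationSubring k) [IsDiscreteValuationRing A]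
  {K : Type u'} [Field K] [NumberField K] (ρ : A →+* K) (hρ : Function.Surjective ρ)
  (f : A[X]) (hlc : IsUnit f.leadingCoeff) (hs : (f.map ρ).Separable)
  (hσ : ∃ σ : AlgebraicClosure K ≃ₐ[K] AlgebraicClosure K,
      ∀ θ : AlgebraicClosure K, aeval θ (f.map ρ) = 0 → σ θ ≠ θ)

include hρ hlc hs hσ

omit [CharZero k] [IsDiscreteValuationRing A] in
/-- a valuation ring with finite residue field inside `A`, after multiplication by a unit of `A` -/
theorem exists_O : ∃ (c : A) (_ : IsUnit c) (O : ValuationSubring k) (hOA : O ≤ A) (g : O[X]),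
    g.map (ValuationSubring.inclusion O A hOA) = C c * f ∧ Finite (IsLocalRing.ResidueField O) ∧
      IsUnit (2 : O) ∧ IsUnit g.leadingCoeff ∧ g.natDegree = f.natDegree ∧
      (g.map (IsLocalRing.residue O)).Separable ∧
      (∀ b : O, g.eval b ∉ IsLocalRing.maximalIdeal O) := by
  classical
  set fb := f.map ρ with hfb
  have hρlc : IsUnit (ρ f.leadingCoeff) := hlc.map ρ
  have hdegb : fb.natDegree = f.natDegree := natDegree_map_of_leadingCoeff_ne_zero _ hρlc.ne_zero
  obtain ⟨c0, hc0, hcf⟩ := IsLocalization.integerNormalization_spec (nonZeroDivisors (𝓞 K)) fb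
  set g0 := IsLocalization.integerNormalization (nonZeroDivisors (𝓞 K)) fb with hg0
  have hc00 : c0 ≠ 0 := nonZeroDivisors.ne_zero hc0
  have hinj : Function.Injective (algebraMap (𝓞 K) K) := IsFractionRing.injective (𝓞 K) K
  have hcK : algebraMap (𝓞 K) K c0 ≠ 0 := by
    rw [Ne, map_eq_zero_iff _ hinj]
    exact hc00
  have hgf : g0.map (algebraMap (𝓞 K) K) = C (algebraMap (𝓞 K) K c0) * fb := by
    rw [hcf]
    ext i
    rw [coeff_smul, coeff_C_mul, Algebra.smul_def]
  have hdeg0 : g0.natDegree = f.natDegree := by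
    rw [← natDegree_map_eq_of_injective hinj g0, hgf, natDegree_C_mul hcK, hdegb]
  have hgs : (g0.map (algebraMap (𝓞 K) K)).Separable := by
    rw [hgf]
    exact Separable.unit_mul (isUnit_C.2 hcK.isUnit) hs
  have hgσ : ∃ σ : AlgebraicClosure K ≃ₐ[K] AlgebraicClosure K,
      ∀ θ : AlgebraicClosure K, aeval θ (g0.map (algebraMap (𝓞 K) K)) = 0 → σ θ ≠ θ := by
    obtain ⟨σ, hσ⟩ := hσ
    refine ⟨σ, fun θ hθ => hσ θ ?_⟩
    rw [hgf, map_mul, aeval_C] at hθ
    exact (mul_eq_zero.1 hθ).resolve_left ((_root_.map_ne_zero _).2 hcK)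
  obtain ⟨T, hT, hTε⟩ := Pool.Agent.W723.SecC.partD1 K g0 c0 hc00 hgs hgσ 1 one_pos
  have hTne : T.Nonempty := by
    rw [Finset.nonempty_iff_ne_empty]
    rintro rfl
    rw [Finset.prod_empty] at hTε
    exact lt_irrefl _ hTε
  obtain ⟨v, hv⟩ := hTne
  obtain ⟨hcv, h2v, hlcv, hsv, hrv⟩ := hT v hv
  obtain ⟨B, _, _, _, _, hfin, hfr, h2B, fB, hfBK, hdegB, hlcB, hsB, hrB, -, -⟩ :=
    local_data v h2v g0 hlcv hsv hrv 1 0 (by rw [pow_zero, Ideal.one_eq_top]; trivial) (by
      rw [zero_add, pow_one]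
      exact (Ideal.ne_top_iff_one _).1 v.isPrime.ne_top)
  -- the unit
  obtain ⟨c, hc⟩ := hρ (algebraMap (𝓞 K) K c0)
  have hcu : IsUnit c := by
    by_contra h
    have h1 : (c : k) ∈ A.nonunits := (ValuationSubring.coe_mem_nonunits_iff).2 h
    rw [ValuationSubring.mem_nonunits_iff_or] at h1
    rcases h1 with h1 | h1
    · apply hcK
      rw [← hc]
      have : c = 0 := Subtype.ext h1
      rw [this, map_zero]
    · apply hcK
      rw [← hc]
      exact ρ_nonunit A ρ hρ h1
  set O := compV A ρ hρ B with hO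
  have hOA : O ≤ A := compV_le A ρ hρ
  set i := ValuationSubring.inclusion O A hOA with hi
  set τ := compTo A ρ hρ B with hτ
  have hτloc : IsLocalHom τ := compTo_local A ρ hρ B
  have hinjB : Function.Injective (algebraMap B K) := IsFractionRing.injective B K
  have hmapρ : (C c * f).map ρ = fB.map (algebraMap B K) := by
    rw [hfBK, hgf, Polynomial.map_mul, map_C, hc]
  have hlift : C c * f ∈ lifts i := by
    rw [lifts_iff_coeff_lifts]
    intro j
    refine ⟨⟨((C c * f).coeff j : A), (mem_compV A ρ hρ).2 ⟨Subtype.mem _, fB.coeff j, ?_⟩⟩, ?_⟩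
    · have h1 := congrArg (fun P => P.coeff j) hmapρ
      simp only [coeff_map] at h1
      exact h1.symm
    · rfl
  obtain ⟨g, hg⟩ := (mem_lifts _).1 hlift
  have hgτ : g.map τ = fB := by
    apply Polynomial.map_injective _ hinjB
    rw [← hmapρ, ← hg]
    ext j
    rw [coeff_map, coeff_map, coeff_map, coeff_map]
    exact compTo_spec A ρ hρ B (g.coeff j)
  have hiinj : Function.Injective i := by
    intro x y h
    exact Subtype.ext (congrArg (fun z : A => (z : k)) h)
  have hdegg : g.natDegree = f.natDegree := by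
    rw [← natDegree_map_eq_of_injective hiinj g, hg]
    exact natDegree_C_mul_of_mul_ne_zero (hcu.mul hlc).ne_zero
  have hlcg : IsUnit g.leadingCoeff := by
    apply hτloc.map_nonunit
    have h1 : τ g.leadingCoeff = fB.leadingCoeff := by
      rw [leadingCoeff, leadingCoeff, hdegB, hdeg0, ← hdegg, ← hgτ, coeff_map]
    rw [h1]
    exact hlcB
  refine ⟨c, hcu, O, hOA, g, hg, ?_, ?_, hlcg, hdegg, ?_, ?_⟩
  · exact Finite.of_injective _ (IsLocalRing.ResidueField.map τ).injective
  · apply hτloc.map_nonunit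
    rw [map_ofNat]
    exact h2B
  · rw [← separable_map (IsLocalRing.ResidueField.map τ), Polynomial.map_map]
    have h1 : (IsLocalRing.ResidueField.map τ).comp (IsLocalRing.residue O) =
        (IsLocalRing.residue B).comp τ := by
      ext x
      rfl
    rw [h1, ← Polynomial.map_map, hgτ]
    exact hsB
  · intro b hb
    apply hrB (τ b)
    rw [← hgτ, eval_map, eval₂_at_apply, IsLocalRing.mem_maximalIdeal]
    intro h
    exact (IsLocalRing.mem_maximalIdeal _).1 hb (hτloc.map_nonunit _ h)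

variable (ϖ : A) (hϖ : Irreducible ϖ) (a : k) (t : A) (ht : IsUnit t) (m : ℤ) (hm : Odd m)
    (ha : a = algebraMap A k t * algebraMap A k ϖ ^ m) (hev : Even f.natDegree)

include hϖ ht hm ha hev

theorem numfield_no_section {F : Type v} {Ω : Type w}
    [Field F] [Field Ω] [Algebra k F] [Algebra F Ω]
    [Algebra k Ω] [IsScalarTower k F Ω] [IsAlgClosed Ω] [Algebra.IsAlgebraic F Ω]
    (h4 : 4 ≤ f.natDegree)
    (U : Set (ValuationSubring F)) (hU : ∀ O ∈ U, ∀ c : k, algebraMap k F c ∈ O)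
    (x y : F) (hxy : algebraMap k F a * y ^ 2 = aeval x (f.map (algebraMap A k))) :
    IsEmpty (GSection k F Ω U) := by
  obtain ⟨c, hc, O, hOA, g, hg, hfin, h2, hlcg, hdeg, hsg, hrg⟩ := exists_O A ρ hρ f hlc hs hσ
  have hgk : g.map (algebraMap O k) = C (algebraMap A k c) * f.map (algebraMap A k) := by
    have h1 : (algebraMap A k).comp (ValuationSubring.inclusion O A hOA) = algebraMap O k := by
      ext b
      rfl
    rw [← h1, ← Polynomial.map_map, hg, Polynomial.map_mul, map_C]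
  refine local_no_sectionB O A hOA g hlcg ϖ hϖ (algebraMap A k c * a) (c * t) (hc.mul ht) m hm ?_ h2
    hsg (by rwa [hdeg]) (by rwa [hdeg]) hrg U hU x y ?_
  · rw [ha, map_mul]
    ring
  · rw [hgk, map_mul, map_mul, aeval_C, mul_assoc, hxy]

theorem numfield_no_point (x y : k) : a * y ^ 2 ≠ (f.map (algebraMap A k)).eval x := by
  obtain ⟨c, hc, O, hOA, g, hg, hfin, h2, hlcg, hdeg, hsg, hrg⟩ := exists_O A ρ hρ f hlc hs hσ
  have hgk : g.map (algebraMap O k) = C (algebraMap A k c) * f.map (algebraMap A k) := by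
    have h1 : (algebraMap A k).comp (ValuationSubring.inclusion O A hOA) = algebraMap O k := by
      ext b
      rfl
    rw [← h1, ← Polynomial.map_map, hg, Polynomial.map_mul, map_C]
  intro h
  refine no_affine_pointB O A hOA g hlcg ϖ hϖ (algebraMap A k c * a) (c * t) (hc.mul ht) m hm ?_
    (by rwa [hdeg]) hrg x y ?_
  · rw [ha, map_mul]
    ring
  · rw [hgk, eval_mul, eval_C, mul_assoc, h]

omit [CharZero k] [NumberField K] in
omit hρ hs hσ hev in
theorem numfield_no_infinite (r : k) :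
    a * r ^ 2 ≠ (f.map (algebraMap A k)).leadingCoeff := by
  rw [leadingCoeff_map_of_injective (IsFractionRing.injective A k)]
  exact no_infinite_point ϖ hϖ f hlc a t ht m hm ha r

end numfield

end Pool.Agent.W623.SecC
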