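import Pool.Agent.W623.SecD.Comp

/-! # The theorem with residue field finite or a number field -/

namespace Pool.Agent.W623.SecC

open Pool.Agent.W620.SC Polynomial NumberField

universe u u' v w

/-- Frobenius fixes no root of a polynomial without roots over a finite field -/
theorem finite_derangement {κ : Type u'} [Field κ] [Finite κ] (g : κ[X]) (hg : ∀ r, g.eval r ≠ 0) :
    ∃ σ : AlgebraicClosure κ ≃ₐ[κ] AlgebraicClosure κ,
      ∀ θ : AlgebraicClosure κ, aeval θ g = 0 → σ θ ≠ θ := by
  classical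
  have := Fintype.ofFinite κ
  refine ⟨FiniteField.frobeniusAlgEquivOfAlgebraic κ (AlgebraicClosure κ), fun θ hθ hfix => ?_⟩
  have h1 : θ ^ Fintype.card κ = θ := hfix
  have hs : (X ^ Fintype.card κ - X : κ[X]).Splits := by
    rw [splits_iff_card_roots, FiniteField.roots_X_pow_card_sub_X,
      FiniteField.X_pow_card_sub_X_natDegree_eq _ Fintype.one_lt_card]
    rfl
  have hne : (X ^ Fintype.card κ - X : κ[X]) ≠ 0 :=
    FiniteField.X_pow_card_sub_X_ne_zero _ Fintype.one_lt_card
  obtain ⟨r, hr⟩ := hs.mem_range_of_isRoot (i := algebraMap κ (AlgebraicClosure κ)) (x := θ) hne (by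
    simp [h1])
  apply hg r
  rw [← hr, aeval_algebraMap_apply] at hθ
  have h2 := (map_eq_zero_iff _ (algebraMap κ (AlgebraicClosure κ)).injective).1 hθ
  rwa [aeval_def, Algebra.algebraMap_self, eval₂_id] at h2

/-- an irreducible polynomial over a finite field or a number field has a derangement -/
theorem irreducible_derangement {κ : Type u'} [Field κ]
    (hκ : (Finite κ ∧ (2 : κ) ≠ 0) ∨ NumberField κ) (g : κ[X]) (hg : Irreducible g)
    (h2 : 2 ≤ g.natDegree) :
    ∃ σ : AlgebraicClosure κ ≃ₐ[κ] AlgebraicClosure κ,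
      ∀ θ : AlgebraicClosure κ, aeval θ g = 0 → σ θ ≠ θ := by
  rcases hκ with ⟨hfin, -⟩ | hκ
  · refine finite_derangement g fun r hr => ?_
    have h1 := degree_eq_one_of_irreducible_of_root hg hr
    have h3 : g.natDegree = 1 := natDegree_eq_of_degree_eq_some h1
    omega
  · exact Pool.Agent.W52.SecC.D3.partD3 κ g hg h2

section uni

variable {k : Type u} [Field k] [CharZero k] (O A : ValuationSubring k) (hOA : O ≤ A)
  [IsDiscreteValuationRing A] {κ : Type u'} [Field κ] (ρ : O →+* κ) (hρ : Function.Surjective ρ)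
  (hκ : (Finite κ ∧ (2 : κ) ≠ 0) ∨ NumberField κ)
  (f : O[X]) (hlc : IsUnit f.leadingCoeff) (hs : (f.map ρ).Separable)
  (hσ : ∃ σ : AlgebraicClosure κ ≃ₐ[κ] AlgebraicClosure κ,
      ∀ θ : AlgebraicClosure κ, aeval θ (f.map ρ) = 0 → σ θ ≠ θ)

include hρ hκ hlc hs hσ

theorem exists_O' : ∃ (c : O) (_ : IsUnit c) (O' : ValuationSubring k) (hO : O' ≤ O) (g : O'[X]),
    g.map (ValuationSubring.inclusion O' O hO) = C c * f ∧
      Finite (IsLocalRing.ResidueField O') ∧
      IsUnit (2 : O') ∧ IsUnit g.leadingCoeff ∧ g.natDegree = f.natDegree ∧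
      (g.map (IsLocalRing.residue O')).Separable ∧
      (∀ b : O', g.eval b ∉ IsLocalRing.maximalIdeal O') := by
  rcases hκ with ⟨hfin, h2⟩ | hκ
  · have hloc : IsLocalHom ρ := Function.Surjective.isLocalHom ρ hρ
    have hunit : ∀ b : O, ρ b ≠ 0 → IsUnit b := fun b hb => by
      have h1 : IsUnit (ρ b) := hb.isUnit
      exact hloc.map_nonunit b h1
    let e : IsLocalRing.ResidueField O →+* κ := IsLocalRing.ResidueField.lift ρ
    have he : e.comp (IsLocalRing.residue O) = ρ := by
      ext b
      rfl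
    refine ⟨1, isUnit_one, O, le_rfl, f, ?_, Finite.of_injective e e.injective, ?_, hlc, rfl, ?_, ?_⟩
    · rw [C_1, one_mul]
      have h1 : ValuationSubring.inclusion O O le_rfl = RingHom.id O := by
        ext b
        rfl
      rw [h1, Polynomial.map_id]
    · apply hunit
      rw [map_ofNat]
      exact h2
    · rw [← separable_map e, Polynomial.map_map, he]
      exact hs
    · intro b hb
      obtain ⟨σ, hσ⟩ := hσ
      have h1 : ρ (f.eval b) = 0 := by
        by_contra h
        exact (IsLocalRing.mem_maximalIdeal _).1 hb (hunit _ h)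
      refine hσ (algebraMap κ (AlgebraicClosure κ) (ρ b)) ?_ (σ.commutes _)
      rw [aeval_algebraMap_apply, aeval_def, Algebra.algebraMap_self, eval₂_id, eval_map,
        eval₂_at_apply, h1, map_zero]
  · exact exists_O O ρ hρ f hlc hs hσ

variable (ϖ : A) (hϖ : Irreducible ϖ) (a : k) (t : A) (ht : IsUnit t) (m : ℤ) (hm : Odd m)
    (ha : a = algebraMap A k t * algebraMap A k ϖ ^ m) (hev : Even f.natDegree)

include hOA hϖ ht hm ha hev

theorem uni_no_section {F : Type v} {Ω : Type w}
    [Field F] [Field Ω] [Algebra k F] [Algebra F Ω]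
    [Algebra k Ω] [IsScalarTower k F Ω] [IsAlgClosed Ω] [Algebra.IsAlgebraic F Ω]
    (h4 : 4 ≤ f.natDegree)
    (U : Set (ValuationSubring F)) (hU : ∀ O ∈ U, ∀ c : k, algebraMap k F c ∈ O)
    (x y : F) (hxy : algebraMap k F a * y ^ 2 = aeval x (f.map (algebraMap O k))) :
    IsEmpty (GSection k F Ω U) := by
  obtain ⟨c, hc, O', hO, g, hg, hfin, h2, hlcg, hdeg, hsg, hrg⟩ := exists_O' O ρ hρ hκ f hlc hs hσ
  have hgk : g.map (algebraMap O' k) = C (algebraMap O k c) * f.map (algebraMap O k) := by
    have h1 : (algebraMap O k).comp (ValuationSubring.inclusion O' O hO) = algebraMap O' k := by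
      ext b
      rfl
    rw [← h1, ← Polynomial.map_map, hg, Polynomial.map_mul, map_C]
  have hcA : algebraMap O k c = algebraMap A k (ValuationSubring.inclusion O A hOA c) := rfl
  refine local_no_sectionB O' A (hO.trans hOA) g hlcg ϖ hϖ (algebraMap O k c * a)
    (ValuationSubring.inclusion O A hOA c * t) ((hc.map _).mul ht) m hm ?_ h2
    hsg (by rwa [hdeg]) (by rwa [hdeg]) hrg U hU x y ?_
  · rw [ha, map_mul, hcA]
    ring
  · rw [hgk, map_mul, map_mul, aeval_C, mul_assoc, hxy]

theorem uni_no_point (x y : k) : a * y ^ 2 ≠ (f.map (algebraMap O k)).eval x := by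
  obtain ⟨c, hc, O', hO, g, hg, hfin, h2, hlcg, hdeg, hsg, hrg⟩ := exists_O' O ρ hρ hκ f hlc hs hσ
  have hgk : g.map (algebraMap O' k) = C (algebraMap O k c) * f.map (algebraMap O k) := by
    have h1 : (algebraMap O k).comp (ValuationSubring.inclusion O' O hO) = algebraMap O' k := by
      ext b
      rfl
    rw [← h1, ← Polynomial.map_map, hg, Polynomial.map_mul, map_C]
  have hcA : algebraMap O k c = algebraMap A k (ValuationSubring.inclusion O A hOA c) := rfl
  intro h
  refine no_affine_pointB O' A (hO.trans hOA) g hlcg ϖ hϖ (algebraMap O k c * a)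
    (ValuationSubring.inclusion O A hOA c * t) ((hc.map _).mul ht) m hm ?_
    (by rwa [hdeg]) hrg x y ?_
  · rw [ha, map_mul, hcA]
    ring
  · rw [hgk, eval_mul, eval_C, mul_assoc, h]

end uni

end Pool.Agent.W623.SecC
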